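import Mathlib

/-!
# The limit function and its sign
-/

set_option autoImplicit false

namespace Pool.Agent.H194R2

open Filter Topology

/-- Auxiliary quantity `l₂`. -/
noncomputable def l2 (q y0 y1 : ℝ) : ℝ :=
  ((q - 2) * ((q - 2) ^ 2 * y0 - 1) - (q - 1) * ((q - 3) ^ 2 * y1 - 1)) / ((q - 1) * (q - 2))

/-- Auxiliary quantity `l₁`. -/
noncomputable def l1 (q y0 y1 : ℝ) : ℝ := (q - 3) ^ 2 * y1 - 1 + l2 q y0 y1

/-- Auxiliary quantity `l₀`. -/
noncomputable def l0 (q y0 y1 : ℝ) : ℝ :=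
  (q - 1) * ((q - 3) ^ 2 * y1 - 1) / (q - 2) + (q - 1) + l2 q y0 y1

/-- The normalised chromatic polynomial. -/
noncomputable def Psi (q y0 y1 x0 x1 : ℝ) : ℝ :=
  x1 * l1 q y0 y1 + (q - 2) * l2 q y0 y1 + (x0 * l0 q y0 y1 - l2 q y0 y1) / (q - 1)

theorem Psi_one (q : ℝ) (hq : 3 < q) : Psi q 1 1 1 1 = (q - 2) ^ 2 := by
  unfold Psi l1 l0 l2
  have h1 : q - 1 ≠ 0 := by linarith
  have h2 : q - 2 ≠ 0 := by linarith
  field_simp
  ring

/-- The exponent ratio. -/
noncomputable def kap (q : ℝ) : ℝ := (q - 1) * (q - 3) / (q - 2)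

theorem kap_pos (q : ℝ) (hq : 3 < q) : 0 < kap q := by
  unfold kap
  apply div_pos
  · apply mul_pos <;> linarith
  · linarith

theorem neg_A (q : ℝ) (hq : 3 < q) (hq4 : q < 4) (h : (q - 3) ^ 2 + (q - 3) < 1) :
    ∃ t s : ℝ, 0 < t ∧ 0 < s ∧
      Psi q (Real.exp (-kap q * s)) (Real.exp s) (Real.exp (-kap q * t)) (Real.exp t) < 0 := by
  set x := q - 3 with hx
  have hx0 : 0 < x := by linarith
  have hx1 : x < 1 := by linarith
  have hk0 := kap_pos q hq
  have hkx : kap q = x * (x + 2) / (1 + x) := by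
    unfold kap
    rw [hx]
    congr 1
    · ring
    · ring
  have hk1 : kap q < 1 := by
    rw [hkx, div_lt_one (by linarith)]
    nlinarith
  -- Bernoulli
  have hB : x ^ (kap q) ≤ 1 - kap q * (1 - x) := by
    have := rpow_one_add_le_one_add_mul_self (s := x - 1) (by linarith) hk0.le hk1.le
    have e : 1 + (x - 1) = x := by ring
    rw [e] at this
    linarith
  have hr : (1 + x) * x ^ (kap q) < 1 := by
    have h1 : (1 + x) * x ^ (kap q) ≤ (1 + x) * (1 - kap q * (1 - x)) :=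
      mul_le_mul_of_nonneg_left hB (by linarith)
    have h2 : (1 + x) * (1 - kap q * (1 - x)) = 1 - x * (1 - x - x ^ 2) := by
      rw [hkx]
      field_simp
      ring
    rw [h2] at h1
    have h3 : 0 < x * (1 - x - x ^ 2) := mul_pos hx0 (by linarith)
    linarith
  have hr0 : 0 < (1 + x) * x ^ (kap q) := mul_pos (by linarith) (Real.rpow_pos_of_pos hx0 _)
  set s := -2 * Real.log x with hs
  have hs0 : 0 < s := by
    have := Real.log_neg hx0 hx1
    rw [hs]; linarith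
  have e1 : Real.exp s = (x ^ 2)⁻¹ := by
    rw [hs, neg_mul, Real.exp_neg]
    congr 1
    rw [two_mul, Real.exp_add, Real.exp_log hx0]
    ring
  have e0 : Real.exp (-kap q * s) = (x ^ (kap q)) ^ 2 := by
    rw [Real.rpow_def_of_pos hx0, ← Real.exp_nat_mul, hs]
    congr 1
    push_cast
    ring
  set r := (1 + x) * x ^ (kap q) with hrdef
  have hl2 : l2 q (Real.exp (-kap q * s)) (Real.exp s) = (r ^ 2 - 1) / (q - 1) := by
    unfold l2
    rw [e1, e0]
    have h1 : q - 1 ≠ 0 := by linarith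
    have h2 : q - 2 ≠ 0 := by linarith
    have h3 : x ^ 2 * (x ^ 2)⁻¹ = 1 := mul_inv_cancel₀ (by positivity)
    rw [← hx, h3]
    have h4 : (q - 2) ^ 2 * (x ^ kap q) ^ 2 = r ^ 2 := by
      rw [hrdef, hx]; ring
    rw [h4]
    field_simp
    ring
  set L := (r ^ 2 - 1) / (q - 1) with hL
  have hLneg : L < 0 := by
    rw [hL]
    apply div_neg_of_neg_of_pos
    · nlinarith
    · linarith
  have hl1 : l1 q (Real.exp (-kap q * s)) (Real.exp s) = L := by
    unfold l1
    rw [hl2, e1, ← hx]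
    have h3 : x ^ 2 * (x ^ 2)⁻¹ = 1 := mul_inv_cancel₀ (by positivity)
    rw [h3]; ring
  have hl0 : l0 q (Real.exp (-kap q * s)) (Real.exp s) = (q - 1) + L := by
    unfold l0
    rw [hl2, e1, ← hx]
    have h3 : x ^ 2 * (x ^ 2)⁻¹ = 1 := mul_inv_cancel₀ (by positivity)
    rw [h3]; ring
  have ht : 0 < -1 / L := div_pos_of_neg_of_neg (by norm_num) hLneg
  refine ⟨-1 / L, s, ht, hs0, ?_⟩
  unfold Psi
  rw [hl2, hl1, hl0]
  set t := -1 / L with htd
  have hE : t + 1 ≤ Real.exp t := Real.add_one_le_exp t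
  have hE1 : Real.exp (-kap q * t) ≤ 1 := by
    rw [Real.exp_le_one_iff]
    have := mul_pos hk0 ht
    linarith
  have hE0 : 0 < Real.exp (-kap q * t) := Real.exp_pos _
  have hLt : L * t = -1 := by
    rw [htd]; exact mul_div_cancel₀ _ hLneg.ne
  have hq1 : 0 < q - 1 := by linarith
  have a1 : (Real.exp (-kap q * t) * (q - 1 + L) - L) / (q - 1) ≤ 1 - L / (q - 1) := by
    rw [div_le_iff₀ hq1]
    have : (1 - L / (q - 1)) * (q - 1) = (q - 1) - L := by
      field_simp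
    rw [this]
    nlinarith
  have a2 : Real.exp t * L ≤ (t + 1) * L := by nlinarith
  have a3 : -L / (q - 1) ≤ -L := by
    rw [div_le_iff₀ hq1]
    nlinarith
  have a4 : L / (q - 1) = -(-L / (q - 1)) := by ring
  nlinarith

theorem neg_B (q : ℝ) (hq : 3 < q) (hq4 : q < 4) (h : 1 < (q - 3) ^ 2 + (q - 3)) :
    ∃ t s : ℝ, 0 < t ∧ 0 < s ∧
      Psi q (Real.exp (-kap q * s)) (Real.exp s) (Real.exp (-kap q * t)) (Real.exp t) < 0 := by
  have hk0 := kap_pos q hq
  have h1 : 0 < q - 1 := by linarith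
  have h2 : 0 < q - 2 := by linarith
  have h3 : 0 < q - 3 := by linarith
  have hk1 : 1 < kap q := by
    unfold kap
    rw [lt_div_iff₀ h2]
    nlinarith
  have hk2 : kap q < 3 / 2 := by
    unfold kap
    rw [div_lt_iff₀ h2]
    nlinarith
  set κ := kap q with hκ
  set s := 1000 / (κ - 1) with hs
  have hs0 : 0 < s := div_pos (by norm_num) (by linarith)
  set E := Real.exp s with hE
  have hE1 : 1 ≤ E := by rw [hE]; exact Real.one_le_exp hs0.le
  have hE0 : 0 < E := by linarith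
  set t := 1 / (12 * E) with ht
  have ht0 : 0 < t := by positivity
  have htE : t * E = 1 / 12 := by
    rw [ht]; field_simp
  have ht1 : t ≤ 1 / 12 := by nlinarith
  have ht2 : t ^ 2 ≤ 1 / 144 := by nlinarith
  have hκt : κ * t ≤ 1 := by nlinarith
  have hκt0 : 0 < κ * t := mul_pos hk0 ht0
  refine ⟨t, s, ht0, hs0, ?_⟩
  set Y := Real.exp (-κ * s) with hY
  have hY0 : 0 < Y := Real.exp_pos _
  have hYE : 1001 * Y * E ≤ 1 := by
    have e1 : Y * E = Real.exp (-(κ - 1) * s) := by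
      rw [hY, hE, ← Real.exp_add]; congr 1; ring
    have e2 : -(κ - 1) * s = -1000 := by
      rw [hs]
      have : κ - 1 ≠ 0 := by linarith
      field_simp
    rw [e2] at e1
    have e3 : Real.exp (-1000) * Real.exp 1000 = 1 := by
      rw [← Real.exp_add]; simp
    have e4 : (1001 : ℝ) ≤ Real.exp 1000 := by
      have := Real.add_one_le_exp (1000 : ℝ)
      linarith
    have e5 : 0 < Real.exp (-1000 : ℝ) := Real.exp_pos _
    rw [mul_assoc, e1]
    nlinarith
  set X := Real.exp t with hX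
  set Z := Real.exp (-κ * t) with hZ
  have hXl : t ≤ X - 1 := by
    have := Real.add_one_le_exp t
    linarith
  have hXu : X - 1 ≤ t + t ^ 2 := by
    have := Real.abs_exp_sub_one_sub_id_le (x := t) (by rw [abs_of_pos ht0]; linarith)
    have := (abs_le.mp this).2
    linarith
  have hZl : Z ≤ 1 := by
    rw [hZ, Real.exp_le_one_iff]
    have := mul_pos hk0 ht0
    linarith
  have hZu : Z - 1 ≤ -κ * t + κ ^ 2 * t ^ 2 := by
    have := Real.abs_exp_sub_one_sub_id_le (x := -κ * t) (by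
      rw [abs_le]; constructor <;> linarith)
    have := (abs_le.mp this).2
    have e : (-κ * t) ^ 2 = κ ^ 2 * t ^ 2 := by ring
    rw [e] at this
    linarith
  -- decomposition
  have hdec : Psi q Y E Z X = (q - 3) ^ 2 * E *
        ((q - 3) / (q - 2) * (X - 1) + (Z - 1) / (q - 1)) +
      (q - 2) ^ 2 * Y * (X / (q - 1) + (q - 2) / (q - 1) + (Z - 1) / (q - 1) ^ 2) +
      (-((q - 3) / (q - 2) + 1 / (q - 1)) * (X - 1) -
        ((q - 1) * (q - 3) / (q - 2) + 1 / ((q - 1) * (q - 2))) * (1 - Z) / (q - 1)) := by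
    unfold Psi l1 l0 l2
    field_simp
    ring
  rw [hdec]
  have hρ : κ / (q - 1) = (q - 3) / (q - 2) := by
    rw [hκ]; unfold kap; field_simp
  have hρ0 : 0 < (q - 3) / (q - 2) := div_pos h3 h2
  have hρ1 : (q - 3) / (q - 2) < 1 / 2 := by
    rw [div_lt_iff₀ h2]; linarith
  have b1 : (q - 3) / (q - 2) * (X - 1) + (Z - 1) / (q - 1) ≤ 2 * t ^ 2 := by
    have c1 : (Z - 1) / (q - 1) ≤ (-κ * t + κ ^ 2 * t ^ 2) / (q - 1) :=
      div_le_div_of_nonneg_right hZu h1.le
    have c2 : (-κ * t + κ ^ 2 * t ^ 2) / (q - 1) =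
        -((q - 3) / (q - 2)) * t + κ * ((q - 3) / (q - 2)) * t ^ 2 := by
      rw [← hρ]; field_simp
    have c3 : (q - 3) / (q - 2) * (X - 1) ≤ (q - 3) / (q - 2) * (t + t ^ 2) :=
      mul_le_mul_of_nonneg_left hXu hρ0.le
    have c4 : κ * ((q - 3) / (q - 2)) ≤ 3 / 4 := by
      have := mul_le_mul hk2.le hρ1.le hρ0.le (by norm_num)
      linarith
    have c5 : 0 ≤ t ^ 2 := by positivity
    rw [c2] at c1
    have c6 : κ * ((q - 3) / (q - 2)) * t ^ 2 ≤ 3 / 4 * t ^ 2 :=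
      mul_le_mul_of_nonneg_right c4 c5
    have c7 : (q - 3) / (q - 2) * t ^ 2 ≤ 1 / 2 * t ^ 2 :=
      mul_le_mul_of_nonneg_right hρ1.le c5
    have c8 : (q - 3) / (q - 2) * (t + t ^ 2) =
      (q - 3) / (q - 2) * t + (q - 3) / (q - 2) * t ^ 2 := by ring
    rw [c8] at c3
    linarith
  have b2 : (q - 3) ^ 2 * E * ((q - 3) / (q - 2) * (X - 1) + (Z - 1) / (q - 1)) ≤
      2 * E * t ^ 2 := by
    have c0 : 0 < (q - 3) ^ 2 * E := by positivity
    have c1 : (q - 3) ^ 2 ≤ 1 := pow_le_one₀ h3.le (by linarith)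
    calc _ ≤ (q - 3) ^ 2 * E * (2 * t ^ 2) := mul_le_mul_of_nonneg_left b1 c0.le
      _ = (q - 3) ^ 2 * (2 * E * t ^ 2) := by ring
      _ ≤ 1 * (2 * E * t ^ 2) := mul_le_mul_of_nonneg_right c1 (by positivity)
      _ = _ := by ring
  have hX2 : X ≤ 2 := by linarith
  have b3 : X / (q - 1) + (q - 2) / (q - 1) + (Z - 1) / (q - 1) ^ 2 ≤ 2 := by
    have c1 : (Z - 1) / (q - 1) ^ 2 ≤ 0 :=
      div_nonpos_of_nonpos_of_nonneg (by linarith) (by positivity)
    have c2 : X / (q - 1) + (q - 2) / (q - 1) = (X + (q - 2)) / (q - 1) := by ring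
    have c3 : (X + (q - 2)) / (q - 1) ≤ 2 := by
      rw [div_le_iff₀ h1]; linarith
    linarith
  have b4 : (q - 2) ^ 2 * Y * (X / (q - 1) + (q - 2) / (q - 1) + (Z - 1) / (q - 1) ^ 2) ≤
      8 * Y := by
    have c0 : 0 < (q - 2) ^ 2 * Y := by positivity
    have c1 : (q - 2) ^ 2 ≤ 4 := by
      have := pow_le_pow_left₀ h2.le (show q - 2 ≤ 2 by linarith) 2
      linarith
    calc _ ≤ (q - 2) ^ 2 * Y * 2 := mul_le_mul_of_nonneg_left b3 c0.le
      _ = (q - 2) ^ 2 * (2 * Y) := by ring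
      _ ≤ 4 * (2 * Y) := mul_le_mul_of_nonneg_right c1 (by positivity)
      _ = _ := by ring
  have b5 : (-((q - 3) / (q - 2) + 1 / (q - 1)) * (X - 1) -
        ((q - 1) * (q - 3) / (q - 2) + 1 / ((q - 1) * (q - 2))) * (1 - Z) / (q - 1)) ≤
      -(t / 3) := by
    have c1 : 0 ≤ ((q - 1) * (q - 3) / (q - 2) + 1 / ((q - 1) * (q - 2))) * (1 - Z) / (q - 1) := by
      apply div_nonneg _ h1.le
      apply mul_nonneg _ (by linarith)
      positivity
    have c2 : 1 / 3 ≤ 1 / (q - 1) := by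
      apply one_div_le_one_div_of_le h1; linarith
    have c3 : 1 / 3 * t ≤ ((q - 3) / (q - 2) + 1 / (q - 1)) * (X - 1) :=
      mul_le_mul (by linarith) hXl ht0.le (by linarith)
    linarith
  have b6 : 2 * E * t ^ 2 = t / 6 := by
    have : 2 * E * t ^ 2 = 2 * (t * E) * t := by ring
    rw [this, htE]; ring
  have b7 : Y ≤ 12 * t / 1001 := by
    have c1 : 1001 * Y * E * t ≤ 1 * t := mul_le_mul_of_nonneg_right hYE ht0.le
    have c2 : 1001 * Y * E * t = 1001 * Y * (t * E) := by ring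
    rw [c2, htE] at c1
    linarith
  linarith

theorem neg_exists (q : ℝ) (hq : 3 < q) (hq4 : q < 4) (h : (q - 3) ^ 2 + (q - 3) ≠ 1) :
    ∃ t s : ℝ, 0 < t ∧ 0 < s ∧
      Psi q (Real.exp (-kap q * s)) (Real.exp s) (Real.exp (-kap q * t)) (Real.exp t) < 0 := by
  rcases lt_or_gt_of_ne h with h1 | h1
  · exact neg_A q hq hq4 h1
  · exact neg_B q hq hq4 h1

end Pool.Agent.H194R2
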