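import Pool.Agent.H194R2.Disc

/-!
# The base disc and the closing operation
-/

set_option autoImplicit false
open Classical

namespace Pool.Agent.H194R2

open Polynomial

/-! ### The base: `K₄` minus an edge -/

/-- The faces of the base. -/
def F4 : Set (Set (Fin 4)) := {{0, 3, 1}, {0, 3, 2}, {1, 2, 3}}

/-- Positions of the base. -/
def pos4 : Fin 4 → ℝ × ℝ := ![(0, 0), (3, 0), (0, 3), (1, 1)]

theorem drawn4 : Drawn F4 pos4 := by
  intro l m hl hm h
  have hl0 := hl.nonneg
  have hm0 := hm.nonneg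
  have hls := hl.sum
  have hms := hm.sum
  simp only [Fin.sum_univ_four, pos4] at h hls hms
  have hx := congrArg Prod.fst h
  have hy := congrArg Prod.snd h
  simp at hx hy
  have key : ∀ n : Fin 4 → ℝ, IsWt F4 n → n 2 = 0 ∨ n 1 = 0 ∨ n 0 = 0 := by
    intro n hn
    obtain ⟨t, ht, hs⟩ := hn.supp
    simp only [F4, Set.mem_insert_iff, Set.mem_singleton_iff] at ht
    rcases ht with rfl | rfl | rfl
    · left; by_contra hne; have := hs 2 hne; simp at this
    · right; left; by_contra hne; have := hs 1 hne; simp at this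
    · right; right; by_contra hne; have := hs 0 hne; simp at this
  have a0 := hl0 0
  have a1 := hl0 1
  have a2 := hl0 2
  have a3 := hl0 3
  have b0 := hm0 0
  have b1 := hm0 1
  have b2 := hm0 2
  have b3 := hm0 3
  have goal : l 0 = m 0 ∧ l 1 = m 1 ∧ l 2 = m 2 ∧ l 3 = m 3 := by
    rcases key l hl with h1 | h1 | h1 <;> rcases key m hm with h2 | h2 | h2 <;>
      refine ⟨?_, ?_, ?_, ?_⟩ <;> linarith
  funext i
  fin_cases i
  · exact goal.1
  · exact goal.2.1
  · exact goal.2.2.1
  · exact goal.2.2.2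

theorem cov4 : Cov F4 := by
  intro x
  fin_cases x
  · exact ⟨{0, 3, 1}, by simp [F4], by simp⟩
  · exact ⟨{0, 3, 1}, by simp [F4], by simp⟩
  · exact ⟨{0, 3, 2}, by simp [F4], by simp⟩
  · exact ⟨{0, 3, 1}, by simp [F4], by simp⟩

theorem adj4 (x y : Fin 4) : (gr F4).Adj x y ↔ x ≠ y := by
  constructor
  · exact fun h => h.1
  · intro h
    refine ⟨h, ?_⟩
    have m1 : ({0, 3, 1} : Set (Fin 4)) ∈ F4 := by simp [F4]
    have m2 : ({0, 3, 2} : Set (Fin 4)) ∈ F4 := by simp [F4]
    have m3 : ({1, 2, 3} : Set (Fin 4)) ∈ F4 := by simp [F4]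
    fin_cases x <;> fin_cases y <;> first
      | exact absurd rfl h
      | (refine ⟨_, m1, ?_, ?_⟩ <;> simp <;> done)
      | (refine ⟨_, m2, ?_, ?_⟩ <;> simp <;> done)
      | (refine ⟨_, m3, ?_, ?_⟩ <;> simp <;> done)

theorem ec4 : ec F4 = 12 := by
  unfold ec
  simp only [adj4]
  simp [Fin.sum_univ_four]

theorem e24 : E2 F4 0 3 1 2 where
  uv := by decide
  uw := by decide
  uz := by decide
  vw := by decide
  vz := by decide
  wz := by decide
  f1 := by simp [F4]
  f2 := by simp [F4]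
  only := by
    intro t ht h0 h3
    simp only [F4, Set.mem_insert_iff, Set.mem_singleton_iff] at ht
    rcases ht with rfl | rfl | rfl
    · left; rfl
    · right; rfl
    · simp at h0

/-- Functions on `Fin 4` as quadruples. -/
def eqv4 (C : Type) : (Fin 4 → C) ≃ C × C × C × C where
  toFun φ := (φ 0, φ 1, φ 3, φ 2)
  invFun p := ![p.1, p.2.1, p.2.2.2, p.2.2.1]
  left_inv φ := by funext i; fin_cases i <;> rfl
  right_inv p := rfl

theorem cs4 {k : ℕ} (h : (Fin 4 → Fin k) → ℝ) :
    cs k h = S4 (fun x y z w => h ((eqv4 (Fin k)).symm (x, y, z, w))) := by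
  unfold cs S4
  have : ∑ x : Fin k, ∑ y : Fin k, ∑ z : Fin k, ∑ w : Fin k,
      h ((eqv4 (Fin k)).symm (x, y, z, w)) =
      ∑ p : Fin k × Fin k × Fin k × Fin k, h ((eqv4 (Fin k)).symm p) := by
    rw [Fintype.sum_prod_type]
    refine Finset.sum_congr rfl fun x _ => ?_
    rw [Fintype.sum_prod_type]
    refine Finset.sum_congr rfl fun y _ => ?_
    rw [Fintype.sum_prod_type]
  rw [this]
  have h2 := Fintype.sum_equiv (eqv4 (Fin k)) h (fun p => h ((eqv4 (Fin k)).symm p))
    (fun φ => by simp)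
  rw [← h2]
  exact Finset.sum_congr (univ_eq _ _) fun _ _ => rfl

theorem good4 : Good 1 0 (-1) := by
  refine ⟨Fin 4, inferInstance, F4, pos4, 0, 1, 3, 2, drawn4, cov4, by simp, ?_, e24, ?_⟩
  · rw [ec4]; simp
  · intro k g
    rw [cs4]
    refine S4_congr fun x y z w => ?_
    have e0 : (eqv4 (Fin k)).symm (x, y, z, w) 0 = x := rfl
    have e1 : (eqv4 (Fin k)).symm (x, y, z, w) 1 = y := rfl
    have e3 : (eqv4 (Fin k)).symm (x, y, z, w) 3 = z := rfl
    have e2 : (eqv4 (Fin k)).symm (x, y, z, w) 2 = w := rfl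
    have hP : Pr F4 s(0, 3) s(0, 3) ((eqv4 (Fin k)).symm (x, y, z, w)) ↔
        (x ≠ y ∧ y ≠ z ∧ z ≠ w ∧ w ≠ x) ∧ y ≠ w := by
      constructor
      · intro h
        have h01 := h 0 1 ((adj4 _ _).2 (by decide)) (by decide) (by decide)
        have h13 := h 1 3 ((adj4 _ _).2 (by decide)) (by decide) (by decide)
        have h32 := h 3 2 ((adj4 _ _).2 (by decide)) (by decide) (by decide)
        have h20 := h 2 0 ((adj4 _ _).2 (by decide)) (by decide) (by decide)
        have h12 := h 1 2 ((adj4 _ _).2 (by decide)) (by decide) (by decide)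
        exact ⟨⟨h01, h13, h32, h20⟩, h12⟩
      · rintro ⟨⟨h01, h13, h32, h20⟩, h12⟩ p q hpq hn _
        rw [adj4] at hpq
        fin_cases p <;> fin_cases q <;> first
          | exact absurd rfl hpq
          | exact absurd rfl hn
          | exact absurd Sym2.eq_swap hn
          | exact h01
          | exact h01.symm
          | exact h13
          | exact h13.symm
          | exact h32
          | exact h32.symm
          | exact h20
          | exact h20.symm
          | exact h12
          | exact h12.symm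
    simp only [e0, e1, e2, e3]
    by_cases h1 : x ≠ y ∧ y ≠ z ∧ z ≠ w ∧ w ≠ x
    · rw [K_pos _ _ _ h1]
      by_cases h2 : y = w
      · rw [if_neg (fun h3 => (hP.1 h3).2 h2)]
        simp [h2]
      · rw [if_pos (hP.2 ⟨h1, h2⟩)]
        simp [h2]
    · rw [K_neg _ _ _ h1, if_neg (fun h3 => h1 (hP.1 h3).1), zero_mul]

/-! ### Closing -/

theorem sum_ne {k : ℕ} (z : Fin k) (A : ℝ) :
    ∑ y : Fin k, (if y ≠ z then A else 0) = ((k : ℝ) - 1) * A := by
  have h1 : ∀ y : Fin k, (if y ≠ z then A else 0) = A - (if y = z then A else 0) := by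
    intro y; by_cases h : y = z <;> simp [h]
  rw [Finset.sum_congr rfl fun y _ => h1 y, Finset.sum_sub_distrib]
  simp
  ring

theorem close_sum {k : ℕ} (A G : ℝ) :
    ∑ y : Fin k, ∑ z : Fin k, ∑ w : Fin k,
      (if y ≠ z ∧ z ≠ w then A + (if y = w then G else 0) else 0) =
    (k : ℝ) * ((k : ℝ) - 1) * (((k : ℝ) - 1) * A + G) := by
  rw [Finset.sum_comm]
  have h1 : ∀ z : Fin k, ∑ y : Fin k, ∑ w : Fin k,
      (if y ≠ z ∧ z ≠ w then A + (if y = w then G else 0) else 0) =
      ((k : ℝ) - 1) * (((k : ℝ) - 1) * A + G) := by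
    intro z
    rw [← sum_ne z]
    refine Finset.sum_congr rfl fun y _ => ?_
    by_cases hy : y ≠ z
    · rw [if_pos hy]
      have h2 : ∀ w : Fin k, (if y ≠ z ∧ z ≠ w then A + (if y = w then G else 0) else 0) =
          (if w ≠ z then A else 0) + (if w = y then G else 0) := by
        intro w
        by_cases hw : w = z
        · subst hw
          simp [Ne.symm hy]
        · by_cases hyw : y = w
          · subst hyw; simp [hy, Ne.symm hy]
          · simp [hy, hw, hyw, Ne.symm hw, Ne.symm hyw]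
      rw [Finset.sum_congr rfl fun w _ => h2 w, Finset.sum_add_distrib, sum_ne]
      simp
    · rw [if_neg hy]
      refine Finset.sum_eq_zero fun w _ => ?_
      rw [if_neg]
      intro h; exact hy h.1
  rw [Finset.sum_congr rfl fun z _ => h1 z]
  simp
  ring

/-- The chromatic polynomial of the closed-up triangulation. -/
noncomputable def cl (A B G TA TB TG : ℝ[X]) : ℝ[X] :=
  X * (X - 1) * ((X - 1) * (nA X A B G TA TB TG + nB X A B G TA TB TG) + nG X A B G TA TB TG)

theorem Good.close {A B G : ℝ[X]} (h : Good A B G) (j : ℕ) :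
    ∃ (V : Type) (_ : Fintype V) (F : Set (Set V)) (pos : V → ℝ × ℝ),
      Drawn F pos ∧ Cov F ∧ 3 ≤ Fintype.card V ∧ ec F + 12 = 6 * Fintype.card V ∧
      ∀ k : ℕ, (cl A B G (pa (j + 2)) (tB (j + 2)) (tG (j + 2))).eval (k : ℝ) =
        cs k (fun φ : V → Fin k => if ∀ x y, (gr F).Adj x y → φ x ≠ φ y then (1 : ℝ) else 0) := by
  obtain ⟨V, _, F, pos, a, b, c, d, hd, hc, hcard, hec, hE, hfn⟩ := h
  obtain ⟨V', _, F', pos', ι, hι, hd', hc', hcard', hec', -, hid⟩ := path_op hd hc hE j
  refine ⟨V', inferInstance, F', pos', hd', hc', by omega, by omega, ?_⟩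
  intro k
  have h1 := hid k a a (fun _ => 1)
  have h2 : cs k (fun φ : V' → Fin k =>
      if ∀ x y, (gr F').Adj x y → φ x ≠ φ y then (1 : ℝ) else 0) =
      cs k (fun φ : V' → Fin k => if Pr F' s(ι a, ι a) s(ι a, ι a) φ then (1 : ℝ) else 0) := by
    refine cs_congr fun φ => ?_
    have : (∀ x y, (gr F').Adj x y → φ x ≠ φ y) ↔ Pr F' s(ι a, ι a) s(ι a, ι a) φ := by
      constructor
      · intro h x y hxy _ _; exact h x y hxy
      · intro h x y hxy
        have hne : s(x, y) ≠ s(ι a, ι a) := by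
          intro e
          rw [Sym2.eq_iff] at e
          apply hxy.1
          rcases e with e | e
          · rw [e.1, e.2]
          · rw [e.1, e.2]
        exact h x y hxy hne hne
    by_cases h3 : ∀ x y, (gr F').Adj x y → φ x ≠ φ y
    · rw [if_pos h3, if_pos (this.1 h3)]
    · rw [if_neg h3, if_neg (fun h4 => h3 (this.2 h4))]
  rw [h2]
  refine Eq.trans ?_ h1.symm
  have h3 : cs k (fun φ : V → Fin k => if Pr F s(a, a) s(a, c) φ then
      Wb (φ b) (φ a) (φ c) (j + 1) (φ d) * 1 else 0) =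
      cs k (fun φ : V → Fin k => if Pr F s(a, c) s(a, c) φ then
        (fun x y z w => Wb y x z (j + 1) w) (φ a) (φ b) (φ c) (φ d) else 0) := by
    refine cs_congr fun φ => ?_
    have : Pr F s(a, a) s(a, c) φ ↔ Pr F s(a, c) s(a, c) φ := by
      constructor
      · intro h x y hxy h1 _
        refine h x y hxy ?_ h1
        intro e
        rw [Sym2.eq_iff] at e
        apply hxy.1
        rcases e with e | e
        · rw [e.1, e.2]
        · rw [e.1, e.2]
      · intro h x y hxy _ h1
        exact h x y hxy h1 h1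
    by_cases h3 : Pr F s(a, c) s(a, c) φ
    · rw [if_pos h3, if_pos (this.2 h3), mul_one]
    · rw [if_neg h3, if_neg (fun h4 => h3 (this.1 h4))]
  rw [h3, hfn k (fun x y z w => Wb y x z (j + 1) w), S4_x]
  set a' := A.eval (k : ℝ)
  set b' := B.eval (k : ℝ)
  set g' := G.eval (k : ℝ)
  set ta := (pa (j + 2)).eval (k : ℝ)
  set tb := (tB (j + 2)).eval (k : ℝ)
  set tg := (tG (j + 2)).eval (k : ℝ)
  have h4 : ∀ y z w : Fin k, ∑ x, K a' b' g' x y z w * Wb y x z (j + 1) w =
      if y ≠ z ∧ z ≠ w then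
        (nA (k : ℝ) a' b' g' ta tb tg + nB (k : ℝ) a' b' g' ta tb tg) +
          (if y = w then nG (k : ℝ) a' b' g' ta tb tg else 0) else 0 := by
    intro y z w
    by_cases hz : y ≠ z ∧ z ≠ w
    · rw [if_pos hz]
      have h5 := inner a' b' g' ta tb tg z y z w hz.1.symm hz.2
      have h6 : ∀ x, K a' b' g' x y z w * Wb y x z (j + 1) w =
          K a' b' g' x y z w * (ta + (if x = z then tb else 0) + (if y = w then tg else 0)) := by
        intro x
        by_cases hx : x ≠ y ∧ w ≠ x
        · rw [Wb_tile j y w x z hx.1.symm hz.1 hx.2 hz.2.symm]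
        · rw [K_neg]
          · ring
          · rintro ⟨h1, _, _, h4⟩
            exact hx ⟨h1, h4⟩
      rw [Finset.sum_congr rfl fun x _ => h6 x, h5]
      by_cases hyw : y = w
      · subst hyw
        rw [K_pos _ _ _ ⟨hz.1.symm, hz.1, hz.2, hz.2.symm⟩]
        simp
      · rw [K_pos _ _ _ ⟨hz.1.symm, hz.1, hz.2, hz.2.symm⟩]
        simp
    · rw [if_neg hz]
      refine Finset.sum_eq_zero fun x _ => ?_
      rw [K_neg, zero_mul]
      rintro ⟨_, h1, h2, _⟩
      exact hz ⟨h1, h2⟩
  have h5 : (∑ y : Fin k, ∑ z : Fin k, ∑ w : Fin k, ∑ x,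
      K a' b' g' x y z w * Wb y x z (j + 1) w) =
      ∑ y : Fin k, ∑ z : Fin k, ∑ w : Fin k, if y ≠ z ∧ z ≠ w then
        (nA (k : ℝ) a' b' g' ta tb tg + nB (k : ℝ) a' b' g' ta tb tg) +
          (if y = w then nG (k : ℝ) a' b' g' ta tb tg else 0) else 0 :=
    Finset.sum_congr rfl fun y _ => Finset.sum_congr rfl fun z _ =>
      Finset.sum_congr rfl fun w _ => h4 y z w
  rw [h5, close_sum]
  simp [cl, nA, nB, nG, a', b', g', ta, tb, tg]

end Pool.Agent.H194R2
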