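import Pool.Agent.H194R2.Limit

/-!
# From drawn complexes to straight-line drawings, edge numbers and colouring numbers
-/

set_option autoImplicit false
open Classical

namespace Pool.Agent.H194R2

variable {V : Type} [Fintype V]

/-- Weights of a point of a segment. -/
noncomputable def sw (u v : V) (s : ℝ) : V → ℝ :=
  fun x => (if x = u then 1 - s else 0) + (if x = v then s else 0)

theorem sw_wt {F : Set (Set V)} {u v : V} {t : Set V} (ht : t ∈ F) (hu : u ∈ t) (hv : v ∈ t)
    {s : ℝ} (h0 : 0 ≤ s) (h1 : s ≤ 1) : IsWt F (sw u v s) where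
  nonneg := by
    intro x; unfold sw
    apply add_nonneg <;> split_ifs <;> linarith
  sum := by
    unfold sw
    rw [Finset.sum_add_distrib]
    simp
  supp := by
    refine ⟨t, ht, fun x hx => ?_⟩
    by_cases hxu : x = u
    · rw [hxu]; exact hu
    · by_cases hxv : x = v
      · rw [hxv]; exact hv
      · exfalso; apply hx; simp [sw, hxu, hxv]

theorem sw_sum (pos : V → ℝ × ℝ) (u v : V) (s : ℝ) :
    ∑ x, sw u v s x • pos x = (1 - s) • pos u + s • pos v := by
  unfold sw
  simp only [add_smul, Finset.sum_add_distrib, ite_smul, zero_smul]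
  simp

theorem seg_wt {pos : V → ℝ × ℝ} {u v : V} {p : ℝ × ℝ} (hp : p ∈ segment ℝ (pos u) (pos v)) :
    ∃ s : ℝ, 0 ≤ s ∧ s ≤ 1 ∧ p = ∑ x, sw u v s x • pos x := by
  obtain ⟨a, b, ha, hb, hab, rfl⟩ := hp
  refine ⟨b, hb, by linarith, ?_⟩
  rw [sw_sum]
  have : a = 1 - b := by linarith
  rw [this]

/-- The common point of two edges. -/
theorem Drawn.common {F : Set (Set V)} {pos : V → ℝ × ℝ} (hd : Drawn F pos) {u v x y : V}
    (huv : (gr F).Adj u v) {t : Set V} (ht : t ∈ F) (hx : x ∈ t) (hy : y ∈ t) {p : ℝ × ℝ}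
    (hne : s(u, v) ≠ s(x, y)) (h1 : p ∈ segment ℝ (pos u) (pos v))
    (h2 : p ∈ segment ℝ (pos x) (pos y)) :
    ∃ w, p = pos w ∧ (w = u ∨ w = v) ∧ (w = x ∨ w = y) := by
  obtain ⟨huv', t', ht', hu, hv⟩ := huv
  obtain ⟨s, hs0, hs1, hps⟩ := seg_wt h1
  obtain ⟨r, hr0, hr1, hpr⟩ := seg_wt h2
  have heq := hd _ _ (sw_wt ht' hu hv hs0 hs1) (sw_wt ht hx hy hr0 hr1) (hps.symm.trans hpr)
  have mem : ∀ w, sw u v s w ≠ 0 → w = x ∨ w = y := by
    intro w hw
    by_contra hcon
    push Not at hcon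
    apply hw
    rw [heq]
    simp [sw, hcon.1, hcon.2]
  have eu : sw u v s u = 1 - s := by simp [sw, huv']
  have ev : sw u v s v = s := by simp [sw, huv'.symm]
  rcases eq_or_ne s 0 with h0 | h0
  · refine ⟨u, ?_, Or.inl rfl, mem u ?_⟩
    · rw [hps, sw_sum, h0]; simp
    · rw [eu, h0]; norm_num
  · rcases eq_or_ne s 1 with h3 | h3
    · refine ⟨v, ?_, Or.inr rfl, mem v ?_⟩
      · rw [hps, sw_sum, h3]; simp
      · rw [ev, h3]; norm_num
    · exfalso
      have m1 := mem u (by rw [eu]; intro h; apply h3; linarith)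
      have m2 := mem v (by rw [ev]; exact h0)
      apply hne
      rw [Sym2.eq_iff]
      rcases m1 with rfl | rfl <;> rcases m2 with rfl | rfl
      · exact absurd rfl huv'
      · left; exact ⟨rfl, rfl⟩
      · right; exact ⟨rfl, rfl⟩
      · exact absurd rfl huv'

theorem Drawn.inj {F : Set (Set V)} {pos : V → ℝ × ℝ} (hd : Drawn F pos) (hc : Cov F) :
    Function.Injective pos := by
  intro u v h
  obtain ⟨t, ht, hu⟩ := hc u
  obtain ⟨t', ht', hv⟩ := hc v
  have e1 := sw_wt (F := F) (s := 0) ht hu hu le_rfl (by norm_num)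
  have e2 := sw_wt (F := F) (s := 0) ht' hv hv le_rfl (by norm_num)
  have h2 := hd _ _ e1 e2 (by rw [sw_sum, sw_sum]; simp [h])
  have h3 := congrFun h2 u
  by_contra hne
  simp [sw, hne] at h3

theorem Drawn.vert {F : Set (Set V)} {pos : V → ℝ × ℝ} (hd : Drawn F pos) (hc : Cov F)
    {u v w : V} (huv : (gr F).Adj u v) (h : pos w ∈ segment ℝ (pos u) (pos v)) :
    w = u ∨ w = v := by
  obtain ⟨t, ht, hw⟩ := hc w
  have hne : s(u, v) ≠ s(w, w) := by
    intro e
    rw [Sym2.eq_iff] at e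
    apply huv.1
    rcases e with e | e
    · rw [e.1, e.2]
    · rw [e.1, e.2]
  obtain ⟨z, hz, h1, h2⟩ := hd.common huv ht hw hw hne h (by rw [segment_same]; rfl)
  rcases h2 with rfl | rfl
  · exact h1
  · exact h1

theorem ec_eq (F : Set (Set V)) : ec F = 2 * (gr F).edgeSet.ncard := by
  have h1 : (gr F).edgeSet.ncard = (gr F).edgeFinset.card := by
    rw [← SimpleGraph.coe_edgeFinset, Set.ncard_coe_finset]
  rw [h1, ← SimpleGraph.sum_degrees_eq_twice_card_edges]
  unfold ec
  refine Finset.sum_congr rfl fun x _ => ?_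
  rw [← SimpleGraph.card_neighborFinset_eq_degree, SimpleGraph.neighborFinset_eq_filter,
    Finset.card_filter]

theorem cs_card (G : SimpleGraph V) (k : ℕ) :
    cs k (fun φ : V → Fin k => if ∀ x y, G.Adj x y → φ x ≠ φ y then (1 : ℝ) else 0) =
      (Nat.card (G.Coloring (Fin k)) : ℝ) := by
  let e : G.Coloring (Fin k) ≃ {φ : V → Fin k // ∀ x y, G.Adj x y → φ x ≠ φ y} :=
    { toFun := fun c => ⟨c, fun x y h => c.valid h⟩
      invFun := fun φ => SimpleGraph.Coloring.mk φ.1 (fun {x y} h => φ.2 x y h)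
      left_inv := fun c => by ext; rfl
      right_inv := fun φ => by ext; rfl }
  rw [Nat.card_congr e, Nat.card_eq_fintype_card, Fintype.card_subtype]
  unfold cs
  rw [← Finset.sum_filter, Finset.sum_const, nsmul_eq_mul, mul_one]

end Pool.Agent.H194R2
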