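import Pool.Agent.H194R2.Ops

/-!
# Edge counts and colour counts under subdivisions
-/

set_option autoImplicit false
open Classical

namespace Pool.Agent.H194R2

variable {V : Type}

/-- Twice the number of edges of the 1-skeleton. -/
noncomputable def ec [Fintype V] (F : Set (Set V)) : ℕ :=
  ∑ x : V, ∑ y : V, if (gr F).Adj x y then 1 else 0

theorem ec_uv [Fintype V] {F : Set (Set V)} {u v w z : V} (h : E2 F u v w z) :
    ec (stel F {u, v}) = ec F + 6 := by
  have h1 : ∑ x : V, (if (gr (stel F {u, v})).Adj none (some x) then 1 else 0) = 4 := by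
    simp only [adj_none_uv h]
    rw [← Finset.sum_filter, Finset.sum_const, smul_eq_mul, mul_one]
    have : Finset.univ.filter (fun x => x = u ∨ x = v ∨ x = w ∨ x = z) = {u, v, w, z} := by
      ext x; simp
    rw [this]
    rw [Finset.card_insert_of_notMem, Finset.card_insert_of_notMem, Finset.card_insert_of_notMem,
      Finset.card_singleton]
    · simpa using h.wz
    · simpa using ⟨h.vw, h.vz⟩
    · simpa using ⟨h.uv, h.uw, h.uz⟩
  have h2 : ∑ x : V, (if (gr (stel F {u, v})).Adj (some x) none then 1 else 0) = 4 := by
    rw [← h1]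
    refine Finset.sum_congr rfl fun x _ => ?_
    rw [(gr (stel F {u, v})).adj_comm]
  have hadj : (gr F).Adj u v := ⟨h.uv, _, h.f1, by simp, by simp⟩
  have h3 : ∑ x : V, ∑ y : V, (if (gr F).Adj x y then 1 else 0) =
      (∑ x : V, ∑ y : V, if (gr (stel F {u, v})).Adj (some x) (some y) then 1 else 0) + 2 := by
    have h4 : ∀ x y : V, (if (gr F).Adj x y then 1 else 0) =
        (if (gr (stel F {u, v})).Adj (some x) (some y) then 1 else 0) +
        ((if x = u then (if y = v then 1 else 0) else 0) +
          (if x = v then (if y = u then 1 else 0) else 0)) := by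
      intro x y
      have huv := h.uv
      simp only [adj_some_uv h]
      by_cases h5 : s(x, y) = s(u, v)
      · rw [Sym2.eq_iff] at h5
        rcases h5 with ⟨rfl, rfl⟩ | ⟨rfl, rfl⟩
        · simp [hadj, huv]
        · simp [hadj.symm, huv, huv.symm]
      · have h5' := h5
        rw [Sym2.eq_iff] at h5'
        push Not at h5'
        have e1 : (if x = u then (if y = v then 1 else 0) else 0) = 0 := by
          split_ifs with c1 c2
          · exact absurd c2 (h5'.1 c1)
          · rfl
          · rfl
        have e2 : (if x = v then (if y = u then 1 else 0) else 0) = 0 := by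
          split_ifs with c1 c2
          · exact absurd c2 (h5'.2 c1)
          · rfl
          · rfl
        rw [e1, e2]
        simp [h5]
    simp only [h4, Finset.sum_add_distrib]
    simp
  unfold ec
  rw [Fintype.sum_option, Fintype.sum_option]
  simp only [Fintype.sum_option, Finset.sum_add_distrib]
  rw [h1, h2, h3]
  simp
  ring

theorem ec_abc [Fintype V] {F : Set (Set V)} {a b c d : V} (h : E2 F a c b d) :
    ec (stel F {a, b, c}) = ec F + 6 := by
  have h1 : ∑ x : V, (if (gr (stel F {a, b, c})).Adj none (some x) then 1 else 0) = 3 := by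
    simp only [adj_none_abc h]
    rw [← Finset.sum_filter, Finset.sum_const, smul_eq_mul, mul_one]
    have : Finset.univ.filter (fun x => x = a ∨ x = b ∨ x = c) = {a, b, c} := by
      ext x; simp
    rw [this]
    rw [Finset.card_insert_of_notMem, Finset.card_insert_of_notMem, Finset.card_singleton]
    · simpa using h.vw.symm
    · simpa using ⟨h.uw, h.uv⟩
  have h2 : ∑ x : V, (if (gr (stel F {a, b, c})).Adj (some x) none then 1 else 0) = 3 := by
    rw [← h1]
    refine Finset.sum_congr rfl fun x _ => ?_
    rw [(gr (stel F {a, b, c})).adj_comm]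
  unfold ec
  rw [Fintype.sum_option, Fintype.sum_option]
  simp only [Fintype.sum_option, Finset.sum_add_distrib]
  rw [h1, h2]
  simp only [adj_some_abc h]
  simp
  ring

/-- Every vertex is in a face. -/
def Cov (F : Set (Set V)) : Prop := ∀ x, ∃ t ∈ F, x ∈ t

theorem Cov.uv {F : Set (Set V)} (hc : Cov F) {u v w z : V} (h : E2 F u v w z) :
    Cov (stel F {u, v}) := by
  intro x
  cases x with
  | none =>
    exact ⟨_, (mem_stel_uv h _).2 (Or.inr (Or.inl rfl)), by simp⟩
  | some x =>
    obtain ⟨t, ht, hx⟩ := hc x
    by_cases h1 : u ∈ t ∧ v ∈ t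
    · have : t = {u, v, w} ∨ t = {u, v, z} := h.only t ht h1.1 h1.2
      have hx' : x = u ∨ x = v ∨ x = w ∨ x = z := by
        rcases this with rfl | rfl <;> simp at hx <;> tauto
      rcases hx' with rfl | rfl | rfl | rfl
      · exact ⟨_, (mem_stel_uv h _).2 (Or.inr (Or.inl rfl)), by simp⟩
      · exact ⟨_, (mem_stel_uv h _).2 (Or.inr (Or.inr (Or.inl rfl))), by simp⟩
      · exact ⟨_, (mem_stel_uv h _).2 (Or.inr (Or.inl rfl)), by simp⟩
      · exact ⟨_, (mem_stel_uv h _).2 (Or.inr (Or.inr (Or.inr (Or.inl rfl)))), by simp⟩
    · exact ⟨_, (mem_stel_uv h _).2 (Or.inl ⟨t, ht, h1, rfl⟩), by simpa using hx⟩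

theorem Cov.abc {F : Set (Set V)} (hc : Cov F) {a b c d : V} (h : E2 F a c b d) :
    Cov (stel F {a, b, c}) := by
  intro x
  cases x with
  | none =>
    exact ⟨_, (mem_stel_abc h _).2 (Or.inr (Or.inl rfl)), by simp⟩
  | some x =>
    obtain ⟨t, ht, hx⟩ := hc x
    by_cases h1 : t = {a, c, b}
    · subst h1
      simp only [Set.mem_insert_iff, Set.mem_singleton_iff] at hx
      rcases hx with rfl | rfl | rfl
      · exact ⟨_, (mem_stel_abc h _).2 (Or.inr (Or.inr (Or.inl rfl))), by simp⟩
      · exact ⟨_, (mem_stel_abc h _).2 (Or.inr (Or.inl rfl)), by simp⟩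
      · exact ⟨_, (mem_stel_abc h _).2 (Or.inr (Or.inl rfl)), by simp⟩
    · exact ⟨_, (mem_stel_abc h _).2 (Or.inl ⟨t, ht, h1, rfl⟩), by simpa using hx⟩

/-! ### Colourings -/

/-- `φ` is a proper colouring of the 1-skeleton with the pairs `e`, `f` removed. -/
def Pr {C : Type} (F : Set (Set V)) (e f : Sym2 V) (φ : V → C) : Prop :=
  ∀ x y, (gr F).Adj x y → s(x, y) ≠ e → s(x, y) ≠ f → φ x ≠ φ y

/-- Extension of a colouring to the new vertex. -/
def ext {C : Type} (x : C) (φ : V → C) : Option V → C
  | none => x
  | some v => φ v

@[simp] theorem ext_none {C : Type} (x : C) (φ : V → C) : ext x φ none = x := rfl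
@[simp] theorem ext_some {C : Type} (x : C) (φ : V → C) (v : V) : ext x φ (some v) = φ v := rfl

/-- Sum over all maps from the vertices to the colours. -/
noncomputable def cs {V : Type} [Fintype V] (k : ℕ) (h : (V → Fin k) → ℝ) : ℝ :=
  ∑ φ : V → Fin k, h φ

theorem sum_ext [Fintype V] {k : ℕ} (h : (Option V → Fin k) → ℝ) :
    ∑ φ : Option V → Fin k, h φ = ∑ φ : V → Fin k, ∑ x : Fin k, h (ext x φ) := by
  rw [Finset.sum_comm, ← Fintype.sum_prod_type']
  refine Fintype.sum_equiv Equiv.piOptionEquivProd _ _ ?_
  intro φ
  congr 1
  funext o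
  cases o <;> rfl

theorem univ_eq {α : Type} (i1 i2 : Fintype α) : @Finset.univ α i1 = @Finset.univ α i2 := by
  rw [Subsingleton.elim i1 i2]

theorem cs_ext [Fintype V] {k : ℕ} (h : (Option V → Fin k) → ℝ) :
    cs k h = cs k (fun φ : V → Fin k => ∑ x : Fin k, h (ext x φ)) := by
  unfold cs
  rw [← sum_ext]
  exact Finset.sum_congr (univ_eq _ _) fun _ _ => rfl

theorem cs_congr [Fintype V] {k : ℕ} {h g : (V → Fin k) → ℝ} (e : ∀ φ, h φ = g φ) :
    cs k h = cs k g := Finset.sum_congr rfl fun φ _ => e φ

theorem Pr_uv {C : Type} {F : Set (Set V)} {u v w z : V} (h : E2 F u v w z) (e1 e2 t : V)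
    (x : C) (φ : V → C) :
    Pr (stel F {u, v}) s(some e1, some e2) s(none, some t) (ext x φ) ↔
      Pr F s(e1, e2) s(u, v) φ ∧ ∀ y, (y = u ∨ y = v ∨ y = w ∨ y = z) → y ≠ t → x ≠ φ y := by
  constructor
  · intro hP
    constructor
    · intro p q hpq h1 h2
      have := hP (some p) (some q) ((adj_some_uv h p q).2 ⟨hpq, h2⟩) (by
        intro e; apply h1; rw [Sym2.eq_iff] at e ⊢; simpa using e) (by
        intro e; rw [Sym2.eq_iff] at e; simp at e)
      simpa using this
    · intro y hy hyt
      have := hP none (some y) ((adj_none_uv h y).2 hy) (by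
        intro e; rw [Sym2.eq_iff] at e; simp at e) (by
        intro e; rw [Sym2.eq_iff] at e; simp at e; exact hyt e)
      simpa using this
  · rintro ⟨hP, hn⟩ p q hpq h1 h2
    cases p with
    | none =>
      cases q with
      | none => exact absurd hpq ((gr _).loopless.irrefl _)
      | some q =>
        simp only [ext_none, ext_some]
        refine hn q ((adj_none_uv h q).1 hpq) ?_
        rintro rfl; exact h2 rfl
    | some p =>
      cases q with
      | none =>
        simp only [ext_none, ext_some]
        refine (hn p ((adj_none_uv h p).1 hpq.symm) ?_).symm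
        rintro rfl; exact h2 Sym2.eq_swap
      | some q =>
        simp only [ext_some]
        obtain ⟨h3, h4⟩ := (adj_some_uv h p q).1 hpq
        refine hP p q h3 ?_ h4
        intro e; apply h1
        rw [Sym2.eq_iff] at e ⊢; simpa using e

/-- Both `m u` and `m v` removed. -/
theorem Pr_uv2 {C : Type} {F : Set (Set V)} {u v w z : V} (h : E2 F u v w z)
    (x : C) (φ : V → C) :
    Pr (stel F {u, v}) s(none, some v) s(none, some u) (ext x φ) ↔
      Pr F s(u, v) s(u, v) φ ∧ x ≠ φ w ∧ x ≠ φ z := by
  constructor
  · intro hP
    refine ⟨?_, ?_, ?_⟩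
    · intro p q hpq h1 h2
      have := hP (some p) (some q) ((adj_some_uv h p q).2 ⟨hpq, h2⟩) (by
        intro e; rw [Sym2.eq_iff] at e; simp at e) (by
        intro e; rw [Sym2.eq_iff] at e; simp at e)
      simpa using this
    · have := hP none (some w) ((adj_none_uv h w).2 (by tauto)) (by
        intro e; rw [Sym2.eq_iff] at e; simp at e; exact h.vw e.symm) (by
        intro e; rw [Sym2.eq_iff] at e; simp at e; exact h.uw e.symm)
      simpa using this
    · have := hP none (some z) ((adj_none_uv h z).2 (by tauto)) (by
        intro e; rw [Sym2.eq_iff] at e; simp at e; exact h.vz e.symm) (by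
        intro e; rw [Sym2.eq_iff] at e; simp at e; exact h.uz e.symm)
      simpa using this
  · rintro ⟨hP, hw, hz⟩ p q hpq h1 h2
    have key : ∀ q, (gr (stel F {u, v})).Adj none (some q) →
        s((none : Option V), some q) ≠ s(none, some v) →
        s((none : Option V), some q) ≠ s(none, some u) → x ≠ φ q := by
      intro q hq h1 h2
      rcases (adj_none_uv h q).1 hq with rfl | rfl | rfl | rfl
      · exact absurd rfl h2
      · exact absurd rfl h1
      · exact hw
      · exact hz
    cases p with
    | none =>
      cases q with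
      | none => exact absurd hpq ((gr _).loopless.irrefl _)
      | some q =>
        simp only [ext_none, ext_some]
        exact key q hpq h1 h2
    | some p =>
      cases q with
      | none =>
        simp only [ext_none, ext_some]
        refine (key p hpq.symm ?_ ?_).symm
        · rw [Sym2.eq_swap]; exact h1
        · rw [Sym2.eq_swap]; exact h2
      | some q =>
        simp only [ext_some]
        obtain ⟨h3, h4⟩ := (adj_some_uv h p q).1 hpq
        exact hP p q h3 h4 h4

/-- Face insertion, with the old edge `a c` and the new edge `b m` removed. -/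
theorem Pr_abc {C : Type} {F : Set (Set V)} {a b c d : V} (h : E2 F a c b d)
    (x : C) (φ : V → C) :
    Pr (stel F {a, b, c}) s(some a, some c) s(some b, none) (ext x φ) ↔
      Pr F s(a, c) s(a, c) φ ∧ x ≠ φ a ∧ x ≠ φ c := by
  constructor
  · intro hP
    refine ⟨?_, ?_, ?_⟩
    · intro p q hpq h1 h2
      have := hP (some p) (some q) ((adj_some_abc h p q).2 hpq) (by
        intro e; apply h1; rw [Sym2.eq_iff] at e ⊢; simpa using e) (by
        intro e; rw [Sym2.eq_iff] at e; simp at e)
      simpa using this
    · have := hP none (some a) ((adj_none_abc h a).2 (by tauto)) (by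
        intro e; rw [Sym2.eq_iff] at e; simp at e) (by
        intro e; rw [Sym2.eq_iff] at e; simp at e; exact h.uw e)
      simpa using this
    · have := hP none (some c) ((adj_none_abc h c).2 (by tauto)) (by
        intro e; rw [Sym2.eq_iff] at e; simp at e) (by
        intro e; rw [Sym2.eq_iff] at e; simp at e; exact h.vw e)
      simpa using this
  · rintro ⟨hP, hw, hz⟩ p q hpq h1 h2
    have key : ∀ q, (gr (stel F {a, b, c})).Adj none (some q) →
        s(some q, (none : Option V)) ≠ s(some b, none) → x ≠ φ q := by
      intro q hq h2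
      rcases (adj_none_abc h q).1 hq with rfl | rfl | rfl
      · exact hw
      · exact absurd rfl h2
      · exact hz
    cases p with
    | none =>
      cases q with
      | none => exact absurd hpq ((gr _).loopless.irrefl _)
      | some q =>
        simp only [ext_none, ext_some]
        refine key q hpq ?_
        rw [Sym2.eq_swap]; exact h2
    | some p =>
      cases q with
      | none =>
        simp only [ext_none, ext_some]
        exact (key p hpq.symm h2).symm
      | some q =>
        simp only [ext_some]
        refine hP p q ((adj_some_abc h p q).1 hpq) ?_ ?_ <;>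
        · intro e; apply h1
          rw [Sym2.eq_iff] at e ⊢; simpa using e

/-- Face insertion with only the old edge `a c` removed. -/
theorem Pr_abc3 {C : Type} {F : Set (Set V)} {a b c d : V} (h : E2 F a c b d)
    (x : C) (φ : V → C) :
    Pr (stel F {a, b, c}) s(some a, some c) s(some a, some c) (ext x φ) ↔
      Pr F s(a, c) s(a, c) φ ∧ x ≠ φ a ∧ x ≠ φ b ∧ x ≠ φ c := by
  constructor
  · intro hP
    refine ⟨?_, ?_, ?_, ?_⟩
    · intro p q hpq h1 h2
      have := hP (some p) (some q) ((adj_some_abc h p q).2 hpq) (by
        intro e; apply h1; rw [Sym2.eq_iff] at e ⊢; simpa using e) (by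
        intro e; apply h1; rw [Sym2.eq_iff] at e ⊢; simpa using e)
      simpa using this
    · have := hP none (some a) ((adj_none_abc h a).2 (by tauto)) (by
        intro e; rw [Sym2.eq_iff] at e; simp at e) (by
        intro e; rw [Sym2.eq_iff] at e; simp at e)
      simpa using this
    · have := hP none (some b) ((adj_none_abc h b).2 (by tauto)) (by
        intro e; rw [Sym2.eq_iff] at e; simp at e) (by
        intro e; rw [Sym2.eq_iff] at e; simp at e)
      simpa using this
    · have := hP none (some c) ((adj_none_abc h c).2 (by tauto)) (by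
        intro e; rw [Sym2.eq_iff] at e; simp at e) (by
        intro e; rw [Sym2.eq_iff] at e; simp at e)
      simpa using this
  · rintro ⟨hP, ha, hb, hc⟩ p q hpq h1 h2
    have key : ∀ q, (gr (stel F {a, b, c})).Adj none (some q) → x ≠ φ q := by
      intro q hq
      rcases (adj_none_abc h q).1 hq with rfl | rfl | rfl
      · exact ha
      · exact hb
      · exact hc
    cases p with
    | none =>
      cases q with
      | none => exact absurd hpq ((gr _).loopless.irrefl _)
      | some q =>
        simp only [ext_none, ext_some]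
        exact key q hpq
    | some p =>
      cases q with
      | none =>
        simp only [ext_none, ext_some]
        exact (key p hpq.symm).symm
      | some q =>
        simp only [ext_some]
        refine hP p q ((adj_some_abc h p q).1 hpq) ?_ ?_ <;>
        · intro e; apply h1
          rw [Sym2.eq_iff] at e ⊢; simpa using e

end Pool.Agent.H194R2
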