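import Pool.Agent.H194R2.Path

/-!
# Colour functions of discs and the tile operations
-/

set_option autoImplicit false
open Classical

namespace Pool.Agent.H194R2

open Polynomial

/-- Four-fold sum over the colours. -/
noncomputable def S4 {k : ℕ} (f : Fin k → Fin k → Fin k → Fin k → ℝ) : ℝ :=
  ∑ x, ∑ y, ∑ z, ∑ w, f x y z w

theorem S4_x {k : ℕ} (f : Fin k → Fin k → Fin k → Fin k → ℝ) :
    S4 f = ∑ y, ∑ z, ∑ w, ∑ x, f x y z w := by
  unfold S4
  rw [Finset.sum_comm]
  refine Finset.sum_congr rfl fun y _ => ?_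
  rw [Finset.sum_comm]
  refine Finset.sum_congr rfl fun z _ => ?_
  rw [Finset.sum_comm]

theorem S4_y {k : ℕ} (f : Fin k → Fin k → Fin k → Fin k → ℝ) :
    S4 f = ∑ x, ∑ z, ∑ w, ∑ y, f x y z w := by
  unfold S4
  refine Finset.sum_congr rfl fun x _ => ?_
  rw [Finset.sum_comm]
  refine Finset.sum_congr rfl fun z _ => ?_
  rw [Finset.sum_comm]

/-- The kernel: colour function of a disc with boundary 4-cycle `x y z w`. -/
noncomputable def K {k : ℕ} (A B G : ℝ) (x y z w : Fin k) : ℝ :=
  if x ≠ y ∧ y ≠ z ∧ z ≠ w ∧ w ≠ x then A + (if x = z then B else 0) + (if y = w then G else 0)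
  else 0

theorem K_pos {k : ℕ} (A B G : ℝ) {x y z w : Fin k} (h : x ≠ y ∧ y ≠ z ∧ z ≠ w ∧ w ≠ x) :
    K A B G x y z w = A + (if x = z then B else 0) + (if y = w then G else 0) := if_pos h

theorem K_neg {k : ℕ} (A B G : ℝ) {x y z w : Fin k} (h : ¬ (x ≠ y ∧ y ≠ z ∧ z ≠ w ∧ w ≠ x)) :
    K A B G x y z w = 0 := if_neg h

/-- New `α` coefficient. -/
def nA {R : Type} [CommRing R] (q A B _G TA TB _TG : R) : R := (q - 2) * (A * TA) + A * TB + B * TA

/-- New `β` coefficient. -/
def nB {R : Type} [CommRing R] (_q _A B _G _TA TB _TG : R) : R := B * TB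

/-- New `γ` coefficient. -/
def nG {R : Type} [CommRing R] (q A B G TA TB TG : R) : R :=
  (q - 1) * ((A + G) * (TA + TG)) + (A + G) * TB + B * (TA + TG) -
    ((q - 2) * (A * TA) + A * TB + B * TA)

theorem sum_col2 {k : ℕ} (S : Finset (Fin k)) (A B T U : ℝ) (z x' : Fin k) (hz : z ∉ S)
    (hx : x' ∉ S) :
    ∑ x, (if x ∈ S then 0 else (A + (if x = z then B else 0)) * (T + (if x = x' then U else 0))) =
      ((k : ℝ) - S.card) * (A * T) + A * U + B * T + (if x' = z then B * U else 0) := by
  have h1 : ∀ x, (if x ∈ S then (0 : ℝ) else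
      (A + (if x = z then B else 0)) * (T + (if x = x' then U else 0))) =
      (if x ∈ S then 0 else A * T + (if x = z then B * T else 0)) +
      (if x = x' then A * U + (if x' = z then B * U else 0) else 0) := by
    intro x
    by_cases hxS : x ∈ S
    · have h2 : x ≠ x' := fun e => hx (e ▸ hxS)
      simp [hxS, h2]
    · simp only [hxS, if_false]
      by_cases h3 : x = x'
      · subst h3
        by_cases h4 : x = z
        · subst h4; simp; ring
        · simp [h4]; ring
      · by_cases h4 : x = z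
        · subst h4; simp [h3]; ring
        · simp [h3, h4]
  rw [Finset.sum_congr rfl fun x _ => h1 x, Finset.sum_add_distrib, sum_col]
  simp [hz]
  ring

/-- The inner sum for a tile operation at the first corner. -/
theorem inner {k : ℕ} (A B G TA TB TG : ℝ) (x' y z w : Fin k) (hy : x' ≠ y) (hw : x' ≠ w) :
    ∑ x, K A B G x y z w * (TA + (if x = x' then TB else 0) + (if y = w then TG else 0)) =
      K (nA (k : ℝ) A B G TA TB TG) (nB (k : ℝ) A B G TA TB TG) (nG (k : ℝ) A B G TA TB TG)
        x' y z w := by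
  by_cases hz : y ≠ z ∧ z ≠ w
  · have h1 : ∀ x : Fin k, K A B G x y z w *
        (TA + (if x = x' then TB else 0) + (if y = w then TG else 0)) =
        if x ∈ ({y, w} : Finset (Fin k)) then 0 else
          ((A + (if y = w then G else 0)) + (if x = z then B else 0)) *
          ((TA + (if y = w then TG else 0)) + (if x = x' then TB else 0)) := by
      intro x
      by_cases hx : x ∈ ({y, w} : Finset (Fin k))
      · rw [if_pos hx, K_neg, zero_mul]
        simp only [Finset.mem_insert, Finset.mem_singleton] at hx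
        rintro ⟨c1, _, _, c4⟩
        rcases hx with h | h
        · exact c1 h
        · exact c4 h.symm
      · rw [if_neg hx, K_pos]
        · ring
        · simp only [Finset.mem_insert, Finset.mem_singleton, not_or] at hx
          exact ⟨hx.1, hz.1, hz.2, Ne.symm hx.2⟩
    rw [Finset.sum_congr rfl fun x _ => h1 x, sum_col2, K_pos _ _ _ ⟨hy, hz.1, hz.2, hw.symm⟩]
    · by_cases hyw : y = w
      · subst hyw
        simp only [Finset.pair_eq_singleton, Finset.card_singleton, if_true]
        simp only [nA, nB, nG]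
        push_cast
        ring
      · rw [Finset.card_pair hyw]
        simp only [hyw, if_false, nA, nB, nG]
        push_cast
        ring
    · simp only [Finset.mem_insert, Finset.mem_singleton, not_or]
      exact ⟨hz.1.symm, hz.2⟩
    · simp only [Finset.mem_insert, Finset.mem_singleton, not_or]
      exact ⟨hy, hw⟩
  · rw [K_neg _ _ _ (by tauto)]
    refine Finset.sum_eq_zero fun x _ => ?_
    rw [K_neg _ _ _ (by tauto), zero_mul]

/-- Rotation symmetry of the kernel. -/
theorem K_rot {k : ℕ} (A B G : ℝ) (x y z w : Fin k) : K A B G x y z w = K A G B y x w z := by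
  by_cases h : x ≠ y ∧ y ≠ z ∧ z ≠ w ∧ w ≠ x
  · rw [K_pos _ _ _ h, K_pos _ _ _ ⟨h.1.symm, h.2.2.2.symm, h.2.2.1.symm, h.2.1.symm⟩]
    ring
  · rw [K_neg _ _ _ h, K_neg]
    rintro ⟨h1, h2, h3, h4⟩
    exact h ⟨h1.symm, h4.symm, h3.symm, h2.symm⟩

/-- `A B G` describe the colour function of the complex minus the edge `a c`. -/
def HasFn {V : Type} [Fintype V] (F : Set (Set V)) (a b c d : V) (A B G : ℝ[X]) : Prop :=
  ∀ (k : ℕ) (g : Fin k → Fin k → Fin k → Fin k → ℝ),
    cs k (fun φ : V → Fin k =>
      if Pr F s(a, c) s(a, c) φ then g (φ a) (φ b) (φ c) (φ d) else 0) =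
    S4 (fun x y z w =>
      K (A.eval (k : ℝ)) (B.eval (k : ℝ)) (G.eval (k : ℝ)) x y z w * g x y z w)

/-- A drawn complex whose colour function is given. -/
def Good (A B G : ℝ[X]) : Prop :=
  ∃ (V : Type) (_ : Fintype V) (F : Set (Set V)) (pos : V → ℝ × ℝ) (a b c d : V),
    Drawn F pos ∧ Cov F ∧ 3 ≤ Fintype.card V ∧ ec F + 12 = 6 * Fintype.card V ∧
    E2 F a c b d ∧ HasFn F a b c d A B G

theorem S4_congr {k : ℕ} {f g : Fin k → Fin k → Fin k → Fin k → ℝ}
    (h : ∀ x y z w, f x y z w = g x y z w) : S4 f = S4 g := by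
  unfold S4
  exact Finset.sum_congr rfl fun x _ => Finset.sum_congr rfl fun y _ =>
    Finset.sum_congr rfl fun z _ => Finset.sum_congr rfl fun w _ => h x y z w

/-- Abstract tile operation at the first corner. -/
theorem S4_tile_x {k : ℕ} (A B G TA TB TG : ℝ) (g : Fin k → Fin k → Fin k → Fin k → ℝ)
    (T : Fin k → Fin k → Fin k → Fin k → ℝ)
    (hT : ∀ x x' y w, x ≠ y → x ≠ w → x' ≠ y → x' ≠ w → T x x' y w =
      TA + (if x = x' then TB else 0) + (if y = w then TG else 0)) :
    S4 (fun x y z w => K A B G x y z w *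
      ∑ x', (if x' ≠ y ∧ x' ≠ w then T x x' y w * g x' y z w else 0)) =
    S4 (fun x y z w =>
      K (nA (k : ℝ) A B G TA TB TG) (nB (k : ℝ) A B G TA TB TG) (nG (k : ℝ) A B G TA TB TG)
        x y z w * g x y z w) := by
  rw [S4_x, S4_x]
  refine Finset.sum_congr rfl fun y _ => Finset.sum_congr rfl fun z _ =>
    Finset.sum_congr rfl fun w _ => ?_
  simp only [Finset.mul_sum]
  rw [Finset.sum_comm]
  refine Finset.sum_congr rfl fun x' _ => ?_
  by_cases h : x' ≠ y ∧ x' ≠ w
  · simp only [if_pos h]
    rw [← inner A B G TA TB TG x' y z w h.1 h.2, Finset.sum_mul]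
    refine Finset.sum_congr rfl fun x _ => ?_
    by_cases hx : x ≠ y ∧ x ≠ w
    · rw [hT x x' y w hx.1 hx.2 h.1 h.2]; ring
    · have : K A B G x y z w = 0 := by
        rw [K_neg]
        rintro ⟨h1, _, _, h4⟩
        exact hx ⟨h1, h4.symm⟩
      rw [this]; ring
  · simp only [if_neg h, mul_zero, Finset.sum_const_zero]
    have : K (nA (k : ℝ) A B G TA TB TG) (nB (k : ℝ) A B G TA TB TG) (nG (k : ℝ) A B G TA TB TG)
        x' y z w = 0 := by
      rw [K_neg]
      rintro ⟨h1, _, _, h4⟩
      exact h ⟨h1, h4.symm⟩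
    rw [this, zero_mul]

/-- Abstract tile operation at the second corner. -/
theorem S4_tile_y {k : ℕ} (A B G TA TB TG : ℝ) (g : Fin k → Fin k → Fin k → Fin k → ℝ)
    (T : Fin k → Fin k → Fin k → Fin k → ℝ)
    (hT : ∀ y y' x z, y ≠ x → y ≠ z → y' ≠ x → y' ≠ z → T y y' x z =
      TA + (if y = y' then TB else 0) + (if x = z then TG else 0)) :
    S4 (fun x y z w => K A B G x y z w *
      ∑ y', (if y' ≠ x ∧ y' ≠ z then T y y' x z * g x y' z w else 0)) =
    S4 (fun x y z w =>
      K (nA (k : ℝ) A G B TA TB TG) (nG (k : ℝ) A G B TA TB TG) (nB (k : ℝ) A G B TA TB TG)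
        x y z w * g x y z w) := by
  rw [S4_y, S4_y]
  refine Finset.sum_congr rfl fun x _ => Finset.sum_congr rfl fun z _ =>
    Finset.sum_congr rfl fun w _ => ?_
  simp only [Finset.mul_sum]
  rw [Finset.sum_comm]
  refine Finset.sum_congr rfl fun y' _ => ?_
  by_cases h : y' ≠ x ∧ y' ≠ z
  · simp only [if_pos h]
    rw [K_rot, ← inner A G B TA TB TG y' x w z h.1 h.2, Finset.sum_mul]
    refine Finset.sum_congr rfl fun y _ => ?_
    by_cases hx : y ≠ x ∧ y ≠ z
    · rw [hT y y' x z hx.1 hx.2 h.1 h.2, K_rot]; ring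
    · have : K A G B y x w z = 0 := by
        rw [K_neg]
        rintro ⟨h1, _, _, h4⟩
        exact hx ⟨h1, h4.symm⟩
      rw [K_rot, this]; ring
  · simp only [if_neg h, mul_zero, Finset.sum_const_zero]
    have : K (nA (k : ℝ) A G B TA TB TG) (nG (k : ℝ) A G B TA TB TG) (nB (k : ℝ) A G B TA TB TG)
        x y' z w = 0 := by
      rw [K_neg]
      rintro ⟨h1, h2, _, _⟩
      exact h ⟨h1.symm, h2⟩
    rw [this, zero_mul]

/-- Coefficients of the path tile with `l` edges. -/
noncomputable def tB (l : ℕ) : ℝ[X] := pt l - pa l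

/-- The third coefficient of the path tile. -/
noncomputable def tG (l : ℕ) : ℝ[X] := C ((-1) ^ l)

theorem Wb_tile {k : ℕ} (j : ℕ) (w z u v : Fin k) (h1 : w ≠ u) (h2 : w ≠ v) (h3 : z ≠ u)
    (h4 : z ≠ v) : Wb w u v (j + 1) z =
      (pa (j + 2)).eval (k : ℝ) + (if u = v then (tB (j + 2)).eval (k : ℝ) else 0) +
        (if w = z then (tG (j + 2)).eval (k : ℝ) else 0) := by
  rw [(W_closed w u v h1 h2 (j + 1)).2 z h3 h4]
  by_cases huv : u = v
  · by_cases hwz : z = w
    · subst hwz
      simp [huv, tB, tG]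
    · simp [huv, hwz, Ne.symm hwz, tB]
  · by_cases hwz : z = w
    · subst hwz
      simp [huv, tG]
    · simp [huv, hwz, Ne.symm hwz]

/-- The A-type path tile operation. -/
theorem Good.opA {A B G : ℝ[X]} (h : Good A B G) (j : ℕ) :
    Good (nA X A B G (pa (j + 2)) (tB (j + 2)) (tG (j + 2)))
      (nB X A B G (pa (j + 2)) (tB (j + 2)) (tG (j + 2)))
      (nG X A B G (pa (j + 2)) (tB (j + 2)) (tG (j + 2))) := by
  obtain ⟨V, _, F, pos, a, b, c, d, hd, hc, hcard, hec, hE, hfn⟩ := h
  have hd1 : Drawn (stel F {a, c}) (npos pos (fun x => if x = a ∨ x = c then 1 / 2 else 0)) := by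
    refine hd.stel {a, c} (1 / 2) (by norm_num) _ (fun x => by simp) ?_
    have : ∀ x : V, (if x = a ∨ x = c then (1 / 2 : ℝ) else 0) =
        (if x = a then 1 / 2 else 0) + (if x = c then 1 / 2 else 0) := by
      intro x
      have huv := hE.uv
      by_cases h1 : x = a
      · subst h1; simp [huv]
      · by_cases h2 : x = c
        · subst h2; simp [h1]
        · simp [h1, h2]
    rw [Finset.sum_congr rfl fun x _ => this x, Finset.sum_add_distrib]
    simp
    norm_num
  obtain ⟨V', _, F', pos', ι, hι, hd', hc', hcard', hec', hcar, hid⟩ :=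
    path_op hd1 (hc.uv hE) hE.new_u j
  refine ⟨V', inferInstance, F', pos', ι none, ι (some b), ι (some c), ι (some d), hd', hc', ?_, ?_,
    ?_, ?_⟩
  · rw [hcard', Fintype.card_option]; omega
  · rw [hec', hcard', Fintype.card_option, ec_uv hE]; omega
  · refine hcar _ _ _ _ hE.new_v ?_ ?_
    · intro h4
      have : some a ∈ ({none, some c, some b} : Set (Option V)) := h4 (by simp)
      simp at this
      rcases this with h5 | h5
      · exact hE.uv h5
      · exact hE.uw h5
    · intro h4
      have : some a ∈ ({none, some c, some d} : Set (Option V)) := h4 (by simp)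
      simp at this
      rcases this with h5 | h5
      · exact hE.uv h5
      · exact hE.uz h5
  · intro k g
    have h1 := hid k none (some c) (fun φ => g (φ none) (φ (some b)) (φ (some c)) (φ (some d)))
    refine h1.trans ?_
    rw [cs_ext]
    have h2 : ∀ φ : V → Fin k,
        (∑ x, if Pr (stel F {a, c}) s(none, some c) s(none, some a) (ext x φ) then
          Wb (ext x φ (some b)) (ext x φ none) (ext x φ (some a)) (j + 1) (ext x φ (some d)) *
          g (ext x φ none) (ext x φ (some b)) (ext x φ (some c)) (ext x φ (some d)) else 0) =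
        if Pr F s(a, c) s(a, c) φ then
          (fun x y z w => ∑ x', if x' ≠ y ∧ x' ≠ w then Wb y x' x (j + 1) w * g x' y z w else 0)
            (φ a) (φ b) (φ c) (φ d) else 0 := by
      intro φ
      by_cases hP : Pr F s(a, c) s(a, c) φ
      · rw [if_pos hP]
        refine Finset.sum_congr rfl fun x _ => ?_
        by_cases h3 : x ≠ φ b ∧ x ≠ φ d
        · rw [if_pos ((Pr_uv2 hE x φ).2 ⟨hP, h3⟩), if_pos h3]
          rfl
        · rw [if_neg (fun h4 => h3 ((Pr_uv2 hE x φ).1 h4).2), if_neg h3]
      · rw [if_neg hP]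
        refine Finset.sum_eq_zero fun x _ => ?_
        rw [if_neg]
        intro h4
        exact hP ((Pr_uv2 hE x φ).1 h4).1
    refine (cs_congr h2).trans ((hfn k (fun x y z w =>
      ∑ x', if x' ≠ y ∧ x' ≠ w then Wb y x' x (j + 1) w * g x' y z w else 0)).trans ?_)
    have h3 := S4_tile_x (A.eval (k : ℝ)) (B.eval (k : ℝ)) (G.eval (k : ℝ))
      ((pa (j + 2)).eval (k : ℝ)) ((tB (j + 2)).eval (k : ℝ)) ((tG (j + 2)).eval (k : ℝ)) g
      (fun x x' y w => Wb y x' x (j + 1) w) (by
        intro x x' y w h1 h2 h3 h4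
        rw [Wb_tile j y w x' x h3.symm h1.symm h4.symm h2.symm]
        simp only [eq_comm])
    refine h3.trans ?_
    refine S4_congr fun x y z w => ?_
    simp [nA, nB, nG]

/-- The B-type path tile operation. -/
theorem Good.opB {A B G : ℝ[X]} (h : Good A B G) (j : ℕ) :
    Good (nA X A G B (pa (j + 2)) (tB (j + 2)) (tG (j + 2)))
      (nG X A G B (pa (j + 2)) (tB (j + 2)) (tG (j + 2)))
      (nB X A G B (pa (j + 2)) (tB (j + 2)) (tG (j + 2))) := by
  obtain ⟨V, _, F, pos, a, b, c, d, hd, hc, hcard, hec, hE, hfn⟩ := h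
  have hd1 : Drawn (stel F {a, b, c})
      (npos pos (fun x => if x = a ∨ x = b ∨ x = c then 1 / 3 else 0)) := by
    refine hd.stel {a, b, c} (1 / 3) (by norm_num) _ (fun x => by simp) ?_
    have : ∀ x : V, (if x = a ∨ x = b ∨ x = c then (1 / 3 : ℝ) else 0) =
        (if x = a then 1 / 3 else 0) + (if x = b then 1 / 3 else 0) +
          (if x = c then 1 / 3 else 0) := by
      intro x
      have h1 := hE.uv
      have h2 := hE.uw
      have h3 := hE.vw
      by_cases c1 : x = a
      · subst c1; simp [h1, h2]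
      · by_cases c2 : x = b
        · subst c2; simp [c1, Ne.symm h3]
        · by_cases c3 : x = c
          · subst c3; simp [c1, c2]
          · simp [c1, c2, c3]
    rw [Finset.sum_congr rfl fun x _ => this x, Finset.sum_add_distrib, Finset.sum_add_distrib]
    simp
    norm_num
  obtain ⟨V', _, F', pos', ι, hι, hd', hc', hcard', hec', hcar, hid⟩ :=
    path_op hd1 (hc.abc hE) hE.ins_bb j
  refine ⟨V', inferInstance, F', pos', ι (some a), ι none, ι (some c), ι (some d), hd', hc', ?_, ?_,
    ?_, ?_⟩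
  · rw [hcard', Fintype.card_option]; omega
  · rw [hec', hcard', Fintype.card_option, ec_abc hE]; omega
  · refine hcar _ _ _ _ hE.ins_ac ?_ ?_
    · intro h4
      have : some b ∈ ({some a, some c, none} : Set (Option V)) := h4 (by simp)
      simp at this
      rcases this with h5 | h5
      · exact hE.uw h5.symm
      · exact hE.vw h5.symm
    · intro h4
      have : none ∈ ({some a, some c, some d} : Set (Option V)) := h4 (by simp)
      simp at this
  · intro k g
    have h1 := hid k (some a) (some c)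
      (fun φ => g (φ (some a)) (φ none) (φ (some c)) (φ (some d)))
    refine h1.trans ?_
    rw [cs_ext]
    have h2 : ∀ φ : V → Fin k,
        (∑ x, if Pr (stel F {a, b, c}) s(some a, some c) s(some b, none) (ext x φ) then
          Wb (ext x φ (some a)) (ext x φ (some b)) (ext x φ none) (j + 1) (ext x φ (some c)) *
          g (ext x φ (some a)) (ext x φ none) (ext x φ (some c)) (ext x φ (some d)) else 0) =
        if Pr F s(a, c) s(a, c) φ then
          (fun x y z w => ∑ y', if y' ≠ x ∧ y' ≠ z then Wb x y y' (j + 1) z * g x y' z w else 0)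
            (φ a) (φ b) (φ c) (φ d) else 0 := by
      intro φ
      by_cases hP : Pr F s(a, c) s(a, c) φ
      · rw [if_pos hP]
        refine Finset.sum_congr rfl fun x _ => ?_
        by_cases h3 : x ≠ φ a ∧ x ≠ φ c
        · rw [if_pos ((Pr_abc hE x φ).2 ⟨hP, h3⟩), if_pos h3]
          rfl
        · rw [if_neg (fun h4 => h3 ((Pr_abc hE x φ).1 h4).2), if_neg h3]
      · rw [if_neg hP]
        refine Finset.sum_eq_zero fun x _ => ?_
        rw [if_neg]
        intro h4
        exact hP ((Pr_abc hE x φ).1 h4).1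
    refine (cs_congr h2).trans ((hfn k (fun x y z w =>
      ∑ y', if y' ≠ x ∧ y' ≠ z then Wb x y y' (j + 1) z * g x y' z w else 0)).trans ?_)
    have h3 := S4_tile_y (A.eval (k : ℝ)) (B.eval (k : ℝ)) (G.eval (k : ℝ))
      ((pa (j + 2)).eval (k : ℝ)) ((tB (j + 2)).eval (k : ℝ)) ((tG (j + 2)).eval (k : ℝ)) g
      (fun y y' x z => Wb x y y' (j + 1) z) (by
        intro y y' x z h1 h2 h3 h4
        rw [Wb_tile j x z y y' h1.symm h3.symm h2.symm h4.symm])
    refine h3.trans ?_
    refine S4_congr fun x y z w => ?_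
    simp [nA, nB, nG]

/-- The B-type vertex operation. -/
theorem Good.opV {A B G : ℝ[X]} (h : Good A B G) :
    Good (nA X A G B 1 (-1) 0) (nG X A G B 1 (-1) 0) (nB X A G B 1 (-1) 0) := by
  obtain ⟨V, _, F, pos, a, b, c, d, hd, hc, hcard, hec, hE, hfn⟩ := h
  have hd1 : Drawn (stel F {a, b, c})
      (npos pos (fun x => if x = a ∨ x = b ∨ x = c then 1 / 3 else 0)) := by
    refine hd.stel {a, b, c} (1 / 3) (by norm_num) _ (fun x => by simp) ?_
    have : ∀ x : V, (if x = a ∨ x = b ∨ x = c then (1 / 3 : ℝ) else 0) =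
        (if x = a then 1 / 3 else 0) + (if x = b then 1 / 3 else 0) +
          (if x = c then 1 / 3 else 0) := by
      intro x
      have h1 := hE.uv
      have h2 := hE.uw
      have h3 := hE.vw
      by_cases c1 : x = a
      · subst c1; simp [h1, h2]
      · by_cases c2 : x = b
        · subst c2; simp [c1, Ne.symm h3]
        · by_cases c3 : x = c
          · subst c3; simp [c1, c2]
          · simp [c1, c2, c3]
    rw [Finset.sum_congr rfl fun x _ => this x, Finset.sum_add_distrib, Finset.sum_add_distrib]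
    simp
    norm_num
  refine ⟨Option V, inferInstance, stel F {a, b, c}, _, some a, none, some c, some d, hd1,
    hc.abc hE, ?_, ?_, hE.ins_ac, ?_⟩
  · rw [Fintype.card_option]; omega
  · rw [Fintype.card_option, ec_abc hE]; omega
  · intro k g
    rw [cs_ext]
    have h2 : ∀ φ : V → Fin k,
        (∑ x, if Pr (stel F {a, b, c}) s(some a, some c) s(some a, some c) (ext x φ) then
          g (ext x φ (some a)) (ext x φ none) (ext x φ (some c)) (ext x φ (some d)) else 0) =
        if Pr F s(a, c) s(a, c) φ then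
          (fun x y z w => ∑ y', if y' ≠ x ∧ y' ≠ z then
            (if y ≠ y' then 1 else 0) * g x y' z w else 0)
            (φ a) (φ b) (φ c) (φ d) else 0 := by
      intro φ
      by_cases hP : Pr F s(a, c) s(a, c) φ
      · rw [if_pos hP]
        refine Finset.sum_congr rfl fun x _ => ?_
        by_cases h3 : x ≠ φ a ∧ x ≠ φ b ∧ x ≠ φ c
        · rw [if_pos ((Pr_abc3 hE x φ).2 ⟨hP, h3⟩), if_pos ⟨h3.1, h3.2.2⟩, if_pos h3.2.1.symm,
            one_mul]
          rfl
        · rw [if_neg (fun h4 => h3 ((Pr_abc3 hE x φ).1 h4).2)]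
          by_cases h5 : x ≠ φ a ∧ x ≠ φ c
          · rw [if_pos h5, if_neg, zero_mul]
            intro h6
            exact h3 ⟨h5.1, h6.symm, h5.2⟩
          · rw [if_neg h5]
      · rw [if_neg hP]
        refine Finset.sum_eq_zero fun x _ => ?_
        rw [if_neg]
        intro h4
        exact hP ((Pr_abc3 hE x φ).1 h4).1
    refine (cs_congr h2).trans ((hfn k (fun x y z w => ∑ y', if y' ≠ x ∧ y' ≠ z then
            (if y ≠ y' then 1 else 0) * g x y' z w else 0)).trans ?_)
    have h3 := S4_tile_y (A.eval (k : ℝ)) (B.eval (k : ℝ)) (G.eval (k : ℝ))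
      1 (-1) 0 g (fun y y' x z => if y ≠ y' then 1 else 0) (by
        intro y y' x z h1 h2 h3 h4
        by_cases h5 : y = y'
        · simp [h5]
        · simp [h5])
    refine h3.trans ?_
    refine S4_congr fun x y z w => ?_
    simp [nA, nB, nG]

end Pool.Agent.H194R2
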