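import Mathlib

/-!
# Straight-line drawn 2-complexes in the plane and stellar subdivisions

A complex is a set `F` of faces (sets of vertices) together with positions of the vertices in the
plane.  It is `Drawn` when the natural map from the geometric realisation to the plane is injective.
Stellar subdivision of an edge or of a face preserves this property.
-/

set_option autoImplicit false
open Classical

namespace Pool.Agent.H194R2

variable {V : Type}

/-- Barycentric weights supported on a face of `F`. -/
structure IsWt [Fintype V] (F : Set (Set V)) (l : V → ℝ) : Prop where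
  nonneg : ∀ v, 0 ≤ l v
  sum : ∑ v, l v = 1
  supp : ∃ t ∈ F, ∀ v, l v ≠ 0 → v ∈ t

/-- The complex is embedded by the straight-line drawing with vertex positions `pos`. -/
def Drawn [Fintype V] (F : Set (Set V)) (pos : V → ℝ × ℝ) : Prop :=
  ∀ l m : V → ℝ, IsWt F l → IsWt F m → ∑ v, l v • pos v = ∑ v, m v • pos v → l = m

/-- The graph (1-skeleton) of a complex. -/
def gr (F : Set (Set V)) : SimpleGraph V where
  Adj x y := x ≠ y ∧ ∃ t ∈ F, x ∈ t ∧ y ∈ t
  symm := ⟨fun _ _ h => ⟨h.1.symm, by obtain ⟨t, ht, h1, h2⟩ := h.2; exact ⟨t, ht, h2, h1⟩⟩⟩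
  loopless := ⟨fun _ h => h.1 rfl⟩

/-- Stellar subdivision at the simplex `σ`; the new vertex is `none`. -/
def stel (F : Set (Set V)) (σ : Set V) : Set (Set (Option V)) :=
  {s | ∃ t ∈ F, (¬ σ ⊆ t ∧ s = some '' t) ∨ (σ ⊆ t ∧ ∃ x ∈ σ, s = insert none (some '' (t \ {x})))}

/-- Positions after a stellar subdivision. -/
noncomputable def npos [Fintype V] (pos : V → ℝ × ℝ) (c : V → ℝ) : Option V → ℝ × ℝ
  | none => ∑ x, c x • pos x
  | some x => pos x

/-- Stellar subdivisions preserve being drawn. -/
theorem Drawn.stel [Fintype V] {F : Set (Set V)} {pos : V → ℝ × ℝ} (h : Drawn F pos) (σ : Set V)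
    (r : ℝ) (hr : 0 < r) (c : V → ℝ) (hc : ∀ x, c x = if x ∈ σ then r else 0)
    (hc1 : ∑ x, c x = 1) : Drawn (stel F σ) (npos pos c) := by
  -- the push-forward map
  let push : (Option V → ℝ) → (V → ℝ) := fun l x => l (some x) + l none * c x
  have hc0 : ∀ x, 0 ≤ c x := by
    intro x; rw [hc]; split_ifs
    · exact hr.le
    · exact le_rfl
  have key : ∀ l : Option V → ℝ, IsWt (Pool.Agent.H194R2.stel F σ) l →
      IsWt F (push l) ∧ (∃ x ∈ σ, l (some x) = 0) := by
    intro l hl
    obtain ⟨s, ⟨t, ht, hs⟩, hsup⟩ := hl.supp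
    have hsum : ∑ v, push l v = 1 := by
      have := hl.sum
      rw [Fintype.sum_option] at this
      simp only [push]
      rw [Finset.sum_add_distrib, ← Finset.mul_sum, hc1]
      linarith
    have hnn : ∀ v, 0 ≤ push l v := fun v =>
      add_nonneg (hl.nonneg _) (mul_nonneg (hl.nonneg _) (hc0 _))
    rcases hs with ⟨h1, h2⟩ | ⟨h1, x, hx, h2⟩
    · subst h2
      have h0 : l none = 0 := by
        by_contra hne
        have := hsup none hne
        simp at this
      refine ⟨⟨hnn, hsum, t, ht, ?_⟩, ?_⟩
      · intro v hv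
        have : l (some v) ≠ 0 := by
          intro h3; apply hv; simp [push, h3, h0]
        have := hsup _ this
        simpa using this
      · obtain ⟨x, hx, hxt⟩ := Set.not_subset.mp h1
        refine ⟨x, hx, ?_⟩
        by_contra hne
        have := hsup _ hne
        simp at this
        exact hxt this
    · subst h2
      refine ⟨⟨hnn, hsum, t, ht, ?_⟩, x, hx, ?_⟩
      · intro v hv
        by_cases hvσ : v ∈ σ
        · exact h1 hvσ
        · have : l (some v) ≠ 0 := by
            intro h3; apply hv; simp [push, h3, hc, hvσ]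
          have := hsup _ this
          simp at this
          exact this.1
      · by_contra hne
        have := hsup _ hne
        simp at this
  have hpos : ∀ l : Option V → ℝ, ∑ v, l v • npos pos c v = ∑ v, push l v • pos v := by
    intro l
    rw [Fintype.sum_option]
    simp only [push, npos, add_smul, Finset.sum_add_distrib, mul_smul]
    rw [← Finset.smul_sum, add_comm]
  intro l m hl hm hlm
  obtain ⟨hl1, x, hx, hlx⟩ := key l hl
  obtain ⟨hm1, y, hy, hmy⟩ := key m hm
  rw [hpos, hpos] at hlm
  have heq := h _ _ hl1 hm1 hlm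
  have ex := congrFun heq x
  have ey := congrFun heq y
  simp only [push, hlx, hmy, hc, hx, hy, if_true] at ex ey
  have h1 := hl.nonneg (some y)
  have h2 := hm.nonneg (some x)
  have hnone : l none = m none := by
    have h3 : m none * r ≤ l none * r := by linarith
    have h4 : l none * r ≤ m none * r := by linarith
    have h5 := le_antisymm h4 h3
    exact mul_right_cancel₀ hr.ne' h5
  funext v
  cases v with
  | none => exact hnone
  | some v =>
    have := congrFun heq v
    simp only [push, hnone] at this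
    linarith

/-- The edge `uv` is in exactly the two faces `uvw` and `uvz`. -/
structure E2 (F : Set (Set V)) (u v w z : V) : Prop where
  uv : u ≠ v
  uw : u ≠ w
  uz : u ≠ z
  vw : v ≠ w
  vz : v ≠ z
  wz : w ≠ z
  f1 : ({u, v, w} : Set V) ∈ F
  f2 : ({u, v, z} : Set V) ∈ F
  only : ∀ t ∈ F, u ∈ t → v ∈ t → t = {u, v, w} ∨ t = {u, v, z}

theorem E2.symm_uv {F : Set (Set V)} {u v w z : V} (h : E2 F u v w z) : E2 F v u w z where
  uv := h.uv.symm
  uw := h.vw
  uz := h.vz
  vw := h.uw
  vz := h.uz
  wz := h.wz
  f1 := by rw [Set.insert_comm]; exact h.f1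
  f2 := by rw [Set.insert_comm]; exact h.f2
  only := by
    intro t ht h1 h2
    rw [Set.insert_comm v u, Set.insert_comm v u]
    exact h.only t ht h2 h1

theorem E2.symm_wz {F : Set (Set V)} {u v w z : V} (h : E2 F u v w z) : E2 F u v z w where
  uv := h.uv
  uw := h.uz
  uz := h.uw
  vw := h.vz
  vz := h.vw
  wz := h.wz.symm
  f1 := h.f2
  f2 := h.f1
  only := fun t ht h1 h2 => (h.only t ht h1 h2).symm

/-- A carried edge is not affected by the subdivision. -/
theorem E2.carry {F : Set (Set V)} {x y p q : V} (h : E2 F x y p q) {σ : Set V}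
    (h1 : ¬ σ ⊆ {x, y, p}) (h2 : ¬ σ ⊆ {x, y, q}) :
    E2 (stel F σ) (some x) (some y) (some p) (some q) where
  uv := by simpa using h.uv
  uw := by simpa using h.uw
  uz := by simpa using h.uz
  vw := by simpa using h.vw
  vz := by simpa using h.vz
  wz := by simpa using h.wz
  f1 := ⟨_, h.f1, Or.inl ⟨h1, by simp [Set.image_insert_eq]⟩⟩
  f2 := ⟨_, h.f2, Or.inl ⟨h2, by simp [Set.image_insert_eq]⟩⟩
  only := by
    rintro s ⟨t, ht, hs⟩ hx hy
    have hxy : x ∈ t ∧ y ∈ t := by
      rcases hs with ⟨_, rfl⟩ | ⟨_, z, _, rfl⟩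
      · simp at hx hy; exact ⟨hx, hy⟩
      · simp at hx hy; exact ⟨hx.1, hy.1⟩
    have h3 := h.only t ht hxy.1 hxy.2
    have h4 : ¬ σ ⊆ t := by
      rcases h3 with rfl | rfl <;> assumption
    rcases hs with ⟨_, rfl⟩ | ⟨h5, _⟩
    · rcases h3 with rfl | rfl
      · left; simp [Set.image_insert_eq]
      · right; simp [Set.image_insert_eq]
    · exact absurd h5 h4

end Pool.Agent.H194R2
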