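import Pool.Agent.H194R2.Close
import Pool.Agent.H194R2.Ana

/-!
# The family of triangulations and its chromatic polynomials
-/

set_option autoImplicit false
open Classical

namespace Pool.Agent.H194R2

open Polynomial

/-- Eigenvalue `λ₀` of the path tile. -/
noncomputable def lam0 (l : ℕ) (q : ℝ) : ℝ :=
  (q - 1) * ((pa l).eval q + (tG l).eval q) + (tB l).eval q

/-- Eigenvalue `λ₁` of the path tile. -/
noncomputable def lam1 (l : ℕ) (q : ℝ) : ℝ := (q - 2) * (pa l).eval q + (tB l).eval q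

/-- Eigenvalue `λ₂` of the path tile. -/
noncomputable def lam2 (l : ℕ) (q : ℝ) : ℝ := (tB l).eval q

theorem stageB (j n : ℕ) : ∃ A B G : ℝ[X], Good A B G ∧ ∀ q : ℝ,
    (q - 1) * (A.eval q + B.eval q) + G.eval q = (q - 2) ^ 2 * lam0 (j + 2) q ^ n ∧
    (q - 2) * A.eval q + G.eval q = (q - 3) ^ 2 * lam1 (j + 2) q ^ n ∧
    G.eval q = lam2 (j + 2) q ^ n := by
  induction n with
  | zero =>
    refine ⟨_, _, _, good4.opV, ?_⟩
    intro q
    simp [nA, nB, nG]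
    constructor <;> ring
  | succ n ih =>
    obtain ⟨A, B, G, hG, h⟩ := ih
    refine ⟨_, _, _, hG.opB j, ?_⟩
    intro q
    obtain ⟨h0, h1, h2⟩ := h q
    rw [pow_succ (lam0 (j + 2) q) n, pow_succ (lam1 (j + 2) q) n, pow_succ (lam2 (j + 2) q) n,
      ← mul_assoc, ← mul_assoc, ← h0, ← h1, ← h2]
    simp [nA, nB, nG, lam0, lam1, lam2]
    constructor <;> ring

theorem stageA {A B G : ℝ[X]} (hG : Good A B G) (j m : ℕ) : ∃ A' B' G' : ℝ[X], Good A' B' G' ∧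
    ∀ q : ℝ,
    (q - 1) * (A'.eval q + G'.eval q) + B'.eval q =
      ((q - 1) * (A.eval q + G.eval q) + B.eval q) * lam0 (j + 2) q ^ m ∧
    (q - 2) * A'.eval q + B'.eval q = ((q - 2) * A.eval q + B.eval q) * lam1 (j + 2) q ^ m ∧
    B'.eval q = B.eval q * lam2 (j + 2) q ^ m := by
  induction m with
  | zero => exact ⟨A, B, G, hG, fun q => by simp⟩
  | succ m ih =>
    obtain ⟨A', B', G', hG', h⟩ := ih
    refine ⟨_, _, _, hG'.opA j, ?_⟩
    intro q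
    obtain ⟨h0, h1, h2⟩ := h q
    rw [pow_succ (lam0 (j + 2) q) m, pow_succ (lam1 (j + 2) q) m, pow_succ (lam2 (j + 2) q) m,
      ← mul_assoc, ← mul_assoc, ← mul_assoc, ← h0, ← h1, ← h2]
    simp [nA, nB, nG, lam0, lam1, lam2]
    constructor <;> ring

/-- The family. -/
theorem family (j n m : ℕ) :
    ∃ (V : Type) (_ : Fintype V) (F : Set (Set V)) (pos : V → ℝ × ℝ) (P : ℝ[X]),
      Drawn F pos ∧ Cov F ∧ 3 ≤ Fintype.card V ∧ ec F + 12 = 6 * Fintype.card V ∧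
      (∀ k : ℕ, P.eval (k : ℝ) =
        cs k (fun φ : V → Fin k => if ∀ x y, (gr F).Adj x y → φ x ≠ φ y then (1 : ℝ) else 0)) ∧
      ∀ q : ℝ, 3 < q → lam2 (j + 2) q ≠ 0 →
        P.eval q = q * (q - 1) * lam2 (j + 2) q ^ (n + (m + 1)) *
          Psi q ((lam0 (j + 2) q / lam2 (j + 2) q) ^ n) ((lam1 (j + 2) q / lam2 (j + 2) q) ^ n)
            ((lam0 (j + 2) q / lam2 (j + 2) q) ^ (m + 1))
            ((lam1 (j + 2) q / lam2 (j + 2) q) ^ (m + 1)) := by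
  obtain ⟨A, B, G, hG, hB⟩ := stageB j n
  obtain ⟨A', B', G', hG', hA⟩ := stageA hG j m
  obtain ⟨V, _, F, pos, hd, hc, hcard, hec, hP⟩ := hG'.close j
  refine ⟨V, inferInstance, F, pos, _, hd, hc, hcard, hec, hP, ?_⟩
  intro q hq hne
  obtain ⟨b0, b1, b2⟩ := hB q
  obtain ⟨a0, a1, a2⟩ := hA q
  have h1 : q - 1 ≠ 0 := by linarith
  have h2 : q - 2 ≠ 0 := by linarith
  -- step 1: the closing polynomial in eigen-coordinates
  have e1 : (cl A' B' G' (pa (j + 2)) (tB (j + 2)) (tG (j + 2))).eval q =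
      q * (q - 1) * (((q - 2) * A'.eval q + B'.eval q) * lam1 (j + 2) q +
        (q - 2) * (B'.eval q * lam2 (j + 2) q) +
        (((q - 1) * (A'.eval q + G'.eval q) + B'.eval q) * lam0 (j + 2) q -
          B'.eval q * lam2 (j + 2) q) / (q - 1)) := by
    simp only [cl, nA, nB, nG, lam0, lam1, lam2, eval_mul, eval_add, eval_sub, eval_X, eval_one,
      eval_ofNat]
    field_simp
    ring
  rw [e1, a0, a1, a2]
  set Λ := lam2 (j + 2) q
  set μ := lam1 (j + 2) q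
  set ν := lam0 (j + 2) q
  have e2 : B.eval q = Λ ^ n * l2 q ((ν / Λ) ^ n) ((μ / Λ) ^ n) := by
    unfold l2
    have c1 : Λ ^ n ≠ 0 := pow_ne_zero _ hne
    have c2 : (q - 1) * (q - 2) * B.eval q =
        (q - 2) * ((q - 2) ^ 2 * ν ^ n - Λ ^ n) - (q - 1) * ((q - 3) ^ 2 * μ ^ n - Λ ^ n) := by
      rw [← b0, ← b1, ← b2]; ring
    rw [div_pow, div_pow]
    field_simp
    linear_combination c2
  have e3 : (q - 2) * A.eval q + B.eval q = Λ ^ n * l1 q ((ν / Λ) ^ n) ((μ / Λ) ^ n) := by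
    unfold l1
    rw [mul_add (Λ ^ n), ← e2]
    have c1 : Λ ^ n * ((q - 3) ^ 2 * (μ / Λ) ^ n - 1) = (q - 3) ^ 2 * μ ^ n - Λ ^ n := by
      rw [div_pow]
      have : Λ ^ n ≠ 0 := pow_ne_zero _ hne
      field_simp
    rw [c1, ← b1, ← b2]; ring
  have e4 : (q - 1) * (A.eval q + G.eval q) + B.eval q =
      Λ ^ n * l0 q ((ν / Λ) ^ n) ((μ / Λ) ^ n) := by
    unfold l0
    rw [mul_add (Λ ^ n), ← e2]
    have c1 : Λ ^ n * ((q - 1) * ((q - 3) ^ 2 * (μ / Λ) ^ n - 1) / (q - 2) + (q - 1)) =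
        (q - 1) * ((q - 3) ^ 2 * μ ^ n - Λ ^ n) / (q - 2) + (q - 1) * Λ ^ n := by
      rw [div_pow]
      have : Λ ^ n ≠ 0 := pow_ne_zero _ hne
      field_simp
    rw [c1, ← b1, ← b2]
    field_simp
    ring
  rw [e3, e4, e2]
  unfold Psi
  rw [div_pow ν Λ (m + 1), div_pow μ Λ (m + 1)]
  have c1 : Λ ^ (m + 1) ≠ 0 := pow_ne_zero _ hne
  set u0 := l0 q ((ν / Λ) ^ n) ((μ / Λ) ^ n)
  set u1 := l1 q ((ν / Λ) ^ n) ((μ / Λ) ^ n)
  set u2 := l2 q ((ν / Λ) ^ n) ((μ / Λ) ^ n)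
  rw [pow_add Λ n (m + 1)]
  field_simp
  ring

end Pool.Agent.H194R2
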