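import Pool.Agent.H194R2.Family

/-!
# Limits and the intermediate value argument
-/

set_option autoImplicit false
open Classical

namespace Pool.Agent.H194R2

open Polynomial Filter Topology

/-- `(1 + u_i / Λ_i) ^ n_i → exp (u s)`. -/
theorem tendsto_pow_exp (u Λ : ℕ → ℝ) (n : ℕ → ℕ) (u0 s : ℝ) (hu : Tendsto u atTop (𝓝 u0))
    (hΛ : Tendsto Λ atTop atTop) (hn : Tendsto (fun i => (n i : ℝ) / Λ i) atTop (𝓝 s)) :
    Tendsto (fun i => (1 + u i / Λ i) ^ n i) atTop (𝓝 (Real.exp (u0 * s))) := by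
  have hx : Tendsto (fun i => u i / Λ i) atTop (𝓝 0) := hu.div_atTop hΛ
  have hx1 : Tendsto (fun i => 1 + u i / Λ i) atTop (𝓝 1) := by
    simpa using hx.const_add 1
  have hpos : ∀ᶠ i in atTop, 0 < 1 + u i / Λ i := hx1.eventually_const_lt (by norm_num)
  have hΛpos : ∀ᶠ i in atTop, 0 < Λ i := hΛ.eventually_gt_atTop 0
  have hup : Tendsto (fun i => (n i : ℝ) * (u i / Λ i)) atTop (𝓝 (u0 * s)) := by
    have := hu.mul hn
    refine this.congr fun i => ?_
    ring
  have hlo : Tendsto (fun i => (n i : ℝ) * (1 - (1 + u i / Λ i)⁻¹)) atTop (𝓝 (u0 * s)) := by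
    have h1 : Tendsto (fun i => (n i : ℝ) * (u i / Λ i) * (1 + u i / Λ i)⁻¹) atTop
        (𝓝 (u0 * s * 1⁻¹)) := hup.mul (hx1.inv₀ (by norm_num))
    rw [inv_one, mul_one] at h1
    refine h1.congr' ?_
    filter_upwards [hpos] with i hi
    have := hi.ne'
    field_simp
    ring
  have hlog : Tendsto (fun i => (n i : ℝ) * Real.log (1 + u i / Λ i)) atTop (𝓝 (u0 * s)) := by
    refine tendsto_of_tendsto_of_tendsto_of_le_of_le' hlo hup ?_ ?_
    · filter_upwards [hpos] with i hi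
      exact mul_le_mul_of_nonneg_left (Real.one_sub_inv_le_log_of_pos hi) (Nat.cast_nonneg _)
    · filter_upwards [hpos] with i hi
      refine mul_le_mul_of_nonneg_left ?_ (Nat.cast_nonneg _)
      have := Real.log_le_sub_one_of_pos hi
      linarith
  have hexp := (Real.continuous_exp.tendsto _).comp hlog
  refine hexp.congr' ?_
  filter_upwards [hpos] with i hi
  simp only [Function.comp_apply]
  rw [← Real.log_pow, Real.exp_log (pow_pos hi _)]

/-- The odd path lengths. -/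
def L (i : ℕ) : ℕ := 2 * i + 1 + 2

theorem neg_one_L (i : ℕ) : (-1 : ℝ) ^ L i = -1 := by
  have : L i = 2 * (i + 1) + 1 := by unfold L; ring
  rw [this, pow_succ, pow_mul]; simp

theorem L_tendsto : Tendsto L atTop atTop := by
  refine tendsto_atTop_mono (fun i => ?_) tendsto_id
  unfold L; simp; omega

theorem pa_L (q : ℝ) (hq : 3 < q) (i : ℕ) :
    (pa (L i)).eval q = ((q - 3) ^ L i + 1) / (q - 2) := by
  have h2 : q - 2 ≠ 0 := by linarith
  rw [eq_div_iff h2, mul_comm, pa_eval, neg_one_L]; ring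

theorem pt_L (q : ℝ) (hq : 3 < q) (i : ℕ) :
    (pt (L i)).eval q = ((q - 2) ^ L i + 1) / (q - 1) := by
  have h2 : q - 1 ≠ 0 := by linarith
  rw [eq_div_iff h2, mul_comm, pt_eval, neg_one_L]; ring

theorem lam2_L (q : ℝ) (hq : 3 < q) (i : ℕ) : lam2 (L i) q =
    ((q - 2) ^ L i + 1) / (q - 1) - ((q - 3) ^ L i + 1) / (q - 2) := by
  unfold lam2 tB
  rw [eval_sub, pa_L q hq, pt_L q hq]

theorem lam1_L (q : ℝ) (hq : 3 < q) (i : ℕ) : lam1 (L i) q =
    ((q - 3) ^ L i + 1) + lam2 (L i) q := by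
  have h2 : q - 2 ≠ 0 := by linarith
  unfold lam1
  rw [pa_L q hq, ← lam2]
  field_simp

theorem lam0_L (q : ℝ) (hq : 3 < q) (i : ℕ) : lam0 (L i) q =
    (q - 1) * (((q - 3) ^ L i + 1) / (q - 2) - 1) + lam2 (L i) q := by
  unfold lam0
  rw [pa_L q hq, ← lam2]
  unfold tG
  rw [eval_C, neg_one_L]
  ring

theorem pow3_tendsto (q : ℝ) (hq : 3 < q) (hq4 : q < 4) :
    Tendsto (fun i => (q - 3) ^ L i) atTop (𝓝 0) :=
  (tendsto_pow_atTop_nhds_zero_of_lt_one (by linarith) (by linarith)).comp L_tendsto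

theorem lam2_ratio (q : ℝ) (hq : 3 < q) (hq4 : q < 4) :
    Tendsto (fun i => lam2 (L i) q / (q - 2) ^ L i) atTop (𝓝 (1 / (q - 1))) := by
  have h1 : Tendsto (fun i => ((q - 2) ^ L i)⁻¹) atTop (𝓝 0) :=
    ((tendsto_pow_atTop_atTop_of_one_lt (by linarith)).comp L_tendsto).inv_tendsto_atTop
  have h3 := pow3_tendsto q hq hq4
  have h4 : Tendsto (fun i => (1 + ((q - 2) ^ L i)⁻¹) / (q - 1) -
      ((q - 3) ^ L i + 1) / (q - 2) * ((q - 2) ^ L i)⁻¹) atTop
      (𝓝 ((1 + 0) / (q - 1) - (0 + 1) / (q - 2) * 0)) :=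
    ((h1.const_add 1).div_const _).sub (((h3.add_const 1).div_const _).mul h1)
  have e : (1 + 0) / (q - 1) - (0 + 1) / (q - 2) * 0 = 1 / (q - 1) := by ring
  rw [e] at h4
  refine h4.congr fun i => ?_
  rw [lam2_L q hq]
  have hp : (q - 2) ^ L i ≠ 0 := pow_ne_zero _ (by linarith)
  have c1 : q - 1 ≠ 0 := by linarith
  have c2 : q - 2 ≠ 0 := by linarith
  field_simp

theorem lam2_atTop (q : ℝ) (hq : 3 < q) (hq4 : q < 4) :
    Tendsto (fun i => lam2 (L i) q) atTop atTop := by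
  have h1 : Tendsto (fun i => (q - 2) ^ L i) atTop atTop :=
    (tendsto_pow_atTop_atTop_of_one_lt (by linarith)).comp L_tendsto
  have h2 := (lam2_ratio q hq hq4).pos_mul_atTop
    (show 0 < 1 / (q - 1) from div_pos one_pos (by linarith)) h1
  refine h2.congr fun i => ?_
  have hp : (q - 2) ^ L i ≠ 0 := pow_ne_zero _ (by linarith)
  field_simp

theorem lam2_quot (q0 q1 : ℝ) (hq0 : 3 < q0) (hq1 : q1 < 4) (h : q0 < q1) :
    Tendsto (fun i => lam2 (L i) q0 / lam2 (L i) q1) atTop (𝓝 0) := by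
  have h0 := lam2_ratio q0 hq0 (by linarith)
  have h1 := lam2_ratio q1 (by linarith) hq1
  have h2 : Tendsto (fun i => ((q0 - 2) / (q1 - 2)) ^ L i) atTop (𝓝 0) :=
    (tendsto_pow_atTop_nhds_zero_of_lt_one (div_nonneg (by linarith) (by linarith))
      (by rw [div_lt_one (by linarith)]; linarith)).comp L_tendsto
  have h3 := (h0.mul h2).div h1 (by
    apply div_ne_zero one_ne_zero; linarith)
  rw [mul_zero, zero_div] at h3
  refine h3.congr fun i => ?_
  simp only [Pi.div_apply]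
  have hp0 : (q0 - 2) ^ L i ≠ 0 := pow_ne_zero _ (by linarith)
  have hp1 : (q1 - 2) ^ L i ≠ 0 := pow_ne_zero _ (by linarith)
  rw [div_pow]
  field_simp

/-- The limit of the normalised polynomial along the family. -/
theorem Psi_tendsto (q : ℝ) (hq : 3 < q) (hq4 : q < 4) (n m : ℕ → ℕ) (s t : ℝ)
    (hn : Tendsto (fun i => (n i : ℝ) / lam2 (L i) q) atTop (𝓝 s))
    (hm : Tendsto (fun i => (m i : ℝ) / lam2 (L i) q) atTop (𝓝 t)) :
    Tendsto (fun i => Psi q ((lam0 (L i) q / lam2 (L i) q) ^ n i)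
      ((lam1 (L i) q / lam2 (L i) q) ^ n i) ((lam0 (L i) q / lam2 (L i) q) ^ m i)
      ((lam1 (L i) q / lam2 (L i) q) ^ m i)) atTop
      (𝓝 (Psi q (Real.exp (-kap q * s)) (Real.exp s) (Real.exp (-kap q * t)) (Real.exp t))) := by
  have hΛ := lam2_atTop q hq hq4
  have hΛpos : ∀ᶠ i in atTop, 0 < lam2 (L i) q := hΛ.eventually_gt_atTop 0
  have h3 := pow3_tendsto q hq hq4
  have hu1 : Tendsto (fun i => (q - 3) ^ L i + 1) atTop (𝓝 1) := by
    simpa using h3.add_const 1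
  have hu0 : Tendsto (fun i => (q - 1) * (((q - 3) ^ L i + 1) / (q - 2) - 1)) atTop
      (𝓝 (-kap q)) := by
    have := ((hu1.div_const (q - 2)).sub_const 1).const_mul (q - 1)
    have e : (q - 1) * (1 / (q - 2) - 1) = -kap q := by
      unfold kap
      have c2 : q - 2 ≠ 0 := by linarith
      field_simp
      ring
    rwa [e] at this
  have e1 : ∀ᶠ i in atTop, 1 + ((q - 3) ^ L i + 1) / lam2 (L i) q =
      lam1 (L i) q / lam2 (L i) q := by
    filter_upwards [hΛpos] with i hi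
    rw [lam1_L q hq]
    have := hi.ne'
    field_simp
    ring
  have e0 : ∀ᶠ i in atTop, 1 + ((q - 1) * (((q - 3) ^ L i + 1) / (q - 2) - 1)) / lam2 (L i) q =
      lam0 (L i) q / lam2 (L i) q := by
    filter_upwards [hΛpos] with i hi
    rw [lam0_L q hq]
    have h5 := hi.ne'
    generalize (q - 1) * (((q - 3) ^ L i + 1) / (q - 2) - 1) = a
    rw [add_div, div_self h5]
    ring
  have a1 : Tendsto (fun i => (lam0 (L i) q / lam2 (L i) q) ^ n i) atTop
      (𝓝 (Real.exp (-kap q * s))) := by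
    refine (tendsto_pow_exp _ _ n _ s hu0 hΛ hn).congr' ?_
    filter_upwards [e0] with i hi
    rw [hi]
  have a2 : Tendsto (fun i => (lam1 (L i) q / lam2 (L i) q) ^ n i) atTop
      (𝓝 (Real.exp s)) := by
    have := tendsto_pow_exp _ _ n _ s hu1 hΛ hn
    rw [one_mul] at this
    refine this.congr' ?_
    filter_upwards [e1] with i hi
    rw [hi]
  have a3 : Tendsto (fun i => (lam0 (L i) q / lam2 (L i) q) ^ m i) atTop
      (𝓝 (Real.exp (-kap q * t))) := by
    refine (tendsto_pow_exp _ _ m _ t hu0 hΛ hm).congr' ?_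
    filter_upwards [e0] with i hi
    rw [hi]
  have a4 : Tendsto (fun i => (lam1 (L i) q / lam2 (L i) q) ^ m i) atTop
      (𝓝 (Real.exp t)) := by
    have := tendsto_pow_exp _ _ m _ t hu1 hΛ hm
    rw [one_mul] at this
    refine this.congr' ?_
    filter_upwards [e1] with i hi
    rw [hi]
  have b2 := (((((a1.const_mul ((q - 2) ^ 2)).sub_const 1).const_mul (q - 2)).sub
    (((a2.const_mul ((q - 3) ^ 2)).sub_const 1).const_mul (q - 1))).div_const
      ((q - 1) * (q - 2)))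
  have b1 := ((a2.const_mul ((q - 3) ^ 2)).sub_const 1).add b2
  have b0 := (((((a2.const_mul ((q - 3) ^ 2)).sub_const 1).const_mul (q - 1)).div_const
    (q - 2)).add_const (q - 1)).add b2
  exact ((a4.mul b1).add (b2.const_mul (q - 2))).add (((a3.mul b0).sub b2).div_const (q - 1))

/-- Main analytic statement: a sign change of the chromatic polynomial. -/
theorem sign_change (q0 q1 : ℝ) (hq0 : 3 < q0) (h : q0 < q1) (hq1 : q1 < 4)
    (hne : (q0 - 3) ^ 2 + (q0 - 3) ≠ 1) :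
    ∃ (V : Type) (_ : Fintype V) (F : Set (Set V)) (pos : V → ℝ × ℝ) (P : ℝ[X]),
      Drawn F pos ∧ Cov F ∧ 3 ≤ Fintype.card V ∧ ec F + 12 = 6 * Fintype.card V ∧
      (∀ k : ℕ, P.eval (k : ℝ) =
        cs k (fun φ : V → Fin k => if ∀ x y, (gr F).Adj x y → φ x ≠ φ y then (1 : ℝ) else 0)) ∧
      ∃ x : ℝ, q0 ≤ x ∧ x ≤ q1 ∧ P.eval x = 0 := by
  obtain ⟨t, s, ht, hs, hneg⟩ := neg_exists q0 hq0 (by linarith) hne
  have hΛ0 := lam2_atTop q0 hq0 (by linarith)
  have hΛ1 := lam2_atTop q1 (by linarith) hq1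
  let n : ℕ → ℕ := fun i => ⌊s * lam2 (L i) q0⌋₊
  let m : ℕ → ℕ := fun i => ⌊t * lam2 (L i) q0⌋₊
  have hn0 : Tendsto (fun i => (n i : ℝ) / lam2 (L i) q0) atTop (𝓝 s) :=
    (tendsto_nat_floor_mul_div_atTop hs.le).comp hΛ0
  have hm0' : Tendsto (fun i => (m i : ℝ) / lam2 (L i) q0) atTop (𝓝 t) :=
    (tendsto_nat_floor_mul_div_atTop ht.le).comp hΛ0
  have hm0 : Tendsto (fun i => ((m i + 1 : ℕ) : ℝ) / lam2 (L i) q0) atTop (𝓝 t) := by
    have := hm0'.add hΛ0.inv_tendsto_atTop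
    rw [add_zero] at this
    refine this.congr fun i => ?_
    simp only [Pi.inv_apply]
    push_cast
    ring
  have hquot := lam2_quot q0 q1 hq0 hq1 h
  have hpos0 : ∀ᶠ i in atTop, 0 < lam2 (L i) q0 := hΛ0.eventually_gt_atTop 0
  have hpos1 : ∀ᶠ i in atTop, 0 < lam2 (L i) q1 := hΛ1.eventually_gt_atTop 0
  have hn1 : Tendsto (fun i => (n i : ℝ) / lam2 (L i) q1) atTop (𝓝 0) := by
    have := hn0.mul hquot
    rw [mul_zero] at this
    refine this.congr' ?_
    filter_upwards [hpos0] with i hi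
    have := hi.ne'
    field_simp
  have hm1 : Tendsto (fun i => ((m i + 1 : ℕ) : ℝ) / lam2 (L i) q1) atTop (𝓝 0) := by
    have := hm0.mul hquot
    rw [mul_zero] at this
    refine this.congr' ?_
    filter_upwards [hpos0] with i hi
    have := hi.ne'
    field_simp
  have lim0 := Psi_tendsto q0 hq0 (by linarith) n (fun i => m i + 1) s t hn0 hm0
  have lim1 := Psi_tendsto q1 (by linarith) hq1 n (fun i => m i + 1) 0 0 hn1 hm1
  rw [mul_zero, Real.exp_zero, Psi_one q1 (by linarith)] at lim1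
  have ev0 := lim0.eventually_lt_const hneg
  have ev1 := lim1.eventually_const_lt (show (0 : ℝ) < (q1 - 2) ^ 2 by
    apply pow_pos; linarith)
  obtain ⟨i, h0, h1, h2, h3⟩ := (ev0.and (ev1.and (hpos0.and hpos1))).exists
  obtain ⟨V, _, F, pos, P, hd, hc, hcard, hec, hP, hval⟩ := family (2 * i + 1) (n i) (m i)
  refine ⟨V, inferInstance, F, pos, P, hd, hc, hcard, hec, hP, ?_⟩
  have v0 : P.eval q0 < 0 := by
    rw [hval q0 hq0 h2.ne']
    refine mul_neg_of_pos_of_neg ?_ h0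
    exact mul_pos (mul_pos (by linarith) (by linarith)) (pow_pos h2 _)
  have v1 : 0 < P.eval q1 := by
    rw [hval q1 (by linarith) h3.ne']
    refine mul_pos ?_ h1
    exact mul_pos (mul_pos (by linarith) (by linarith)) (pow_pos h3 _)
  have := intermediate_value_Icc h.le (P.continuous.continuousOn (s := Set.Icc q0 q1))
  obtain ⟨x, hx, hx0⟩ := this ⟨v0.le, v1.le⟩
  exact ⟨x, hx.1, hx.2, hx0⟩

end Pool.Agent.H194R2
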