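import Pool.Agent.H194R2.Draw

/-!
# The two subdivision operations: edge subdivision and face insertion
-/

set_option autoImplicit false
open Classical

namespace Pool.Agent.H194R2

variable {V : Type}

/-! ### Edge subdivision -/

section edge

variable {F : Set (Set V)} {u v w z : V}

theorem mem_stel_uv (h : E2 F u v w z) (s : Set (Option V)) :
    s ∈ stel F {u, v} ↔ (∃ t ∈ F, ¬ (u ∈ t ∧ v ∈ t) ∧ s = some '' t) ∨
      s = {none, some u, some w} ∨ s = {none, some v, some w} ∨
      s = {none, some u, some z} ∨ s = {none, some v, some z} := by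
  have huv := h.uv
  have huw := h.uw
  have huz := h.uz
  have hvw := h.vw
  have hvz := h.vz
  have hwz := h.wz
  have e1 : ({u, v, w} : Set V) \ {u} = {v, w} := by
    ext a; simp only [Set.mem_sdiff, Set.mem_insert_iff, Set.mem_singleton_iff]
    constructor
    · rintro ⟨h1 | h1 | h1, h2⟩ <;> simp_all
    · rintro (rfl | rfl)
      · exact ⟨Or.inr (Or.inl rfl), huv.symm⟩
      · exact ⟨Or.inr (Or.inr rfl), huw.symm⟩
  have e2 : ({u, v, w} : Set V) \ {v} = {u, w} := by
    ext a; simp only [Set.mem_sdiff, Set.mem_insert_iff, Set.mem_singleton_iff]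
    constructor
    · rintro ⟨h1 | h1 | h1, h2⟩ <;> simp_all
    · rintro (rfl | rfl)
      · exact ⟨Or.inl rfl, huv⟩
      · exact ⟨Or.inr (Or.inr rfl), hvw.symm⟩
  have e3 : ({u, v, z} : Set V) \ {u} = {v, z} := by
    ext a; simp only [Set.mem_sdiff, Set.mem_insert_iff, Set.mem_singleton_iff]
    constructor
    · rintro ⟨h1 | h1 | h1, h2⟩ <;> simp_all
    · rintro (rfl | rfl)
      · exact ⟨Or.inr (Or.inl rfl), huv.symm⟩
      · exact ⟨Or.inr (Or.inr rfl), huz.symm⟩
  have e4 : ({u, v, z} : Set V) \ {v} = {u, z} := by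
    ext a; simp only [Set.mem_sdiff, Set.mem_insert_iff, Set.mem_singleton_iff]
    constructor
    · rintro ⟨h1 | h1 | h1, h2⟩ <;> simp_all
    · rintro (rfl | rfl)
      · exact ⟨Or.inl rfl, huv⟩
      · exact ⟨Or.inr (Or.inr rfl), hvz.symm⟩
  constructor
  · rintro ⟨t, ht, h1 | h1⟩
    · left
      refine ⟨t, ht, ?_, h1.2⟩
      intro h2; apply h1.1
      intro a ha
      rcases ha with rfl | ha
      · exact h2.1
      · rw [Set.mem_singleton_iff] at ha; rw [ha]; exact h2.2
    · right
      obtain ⟨h2, x, hx, rfl⟩ := h1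
      have hu : u ∈ t := h2 (by simp)
      have hv : v ∈ t := h2 (by simp)
      rcases h.only t ht hu hv with rfl | rfl
      · rcases hx with rfl | hx
        · right; left
          rw [e1]; simp [Set.image_insert_eq]
        · rw [Set.mem_singleton_iff] at hx; subst hx
          left
          rw [e2]; simp [Set.image_insert_eq]
      · rcases hx with rfl | hx
        · right; right; right
          rw [e3]; simp [Set.image_insert_eq]
        · rw [Set.mem_singleton_iff] at hx; subst hx
          right; right; left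
          rw [e4]; simp [Set.image_insert_eq]
  · have s1 : ({u, v} : Set V) ⊆ {u, v, w} := by
      intro a ha; simp at ha ⊢; tauto
    have s2 : ({u, v} : Set V) ⊆ {u, v, z} := by
      intro a ha; simp at ha ⊢; tauto
    rintro (⟨t, ht, h1, rfl⟩ | rfl | rfl | rfl | rfl)
    · refine ⟨t, ht, Or.inl ⟨?_, rfl⟩⟩
      intro h2; exact h1 ⟨h2 (by simp), h2 (by simp)⟩
    · refine ⟨_, h.f1, Or.inr ⟨s1, v, by simp, ?_⟩⟩
      rw [e2]; simp [Set.image_insert_eq]
    · refine ⟨_, h.f1, Or.inr ⟨s1, u, by simp, ?_⟩⟩
      rw [e1]; simp [Set.image_insert_eq]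
    · refine ⟨_, h.f2, Or.inr ⟨s2, v, by simp, ?_⟩⟩
      rw [e4]; simp [Set.image_insert_eq]
    · refine ⟨_, h.f2, Or.inr ⟨s2, u, by simp, ?_⟩⟩
      rw [e3]; simp [Set.image_insert_eq]

/-- New edge `m z` with opposite vertices `u, v`. -/
theorem E2.new_z (h : E2 F u v w z) : E2 (stel F {u, v}) none (some z) (some u) (some v) where
  uv := by simp
  uw := by simp
  uz := by simp
  vw := by simpa using h.uz.symm
  vz := by simpa using h.vz.symm
  wz := by simpa using h.uv
  f1 := by
    rw [mem_stel_uv h]; right; right; right; left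
    ext a; simp only [Set.mem_insert_iff, Set.mem_singleton_iff]; tauto
  f2 := by
    rw [mem_stel_uv h]; right; right; right; right
    ext a; simp only [Set.mem_insert_iff, Set.mem_singleton_iff]; tauto
  only := by
    intro s hs h1 h2
    have huz := h.uz
    have hvz := h.vz
    have hwz := h.wz
    rcases (mem_stel_uv h s).1 hs with ⟨t, ht, h3, rfl⟩ | rfl | rfl | rfl | rfl
    · simp at h1
    · simp at h2; tauto
    · simp at h2; tauto
    · left; ext a; simp only [Set.mem_insert_iff, Set.mem_singleton_iff]; tauto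
    · right; ext a; simp only [Set.mem_insert_iff, Set.mem_singleton_iff]; tauto

/-- New edge `m v` with opposite vertices `w, z`. -/
theorem E2.new_v (h : E2 F u v w z) : E2 (stel F {u, v}) none (some v) (some w) (some z) where
  uv := by simp
  uw := by simp
  uz := by simp
  vw := by simpa using h.vw
  vz := by simpa using h.vz
  wz := by simpa using h.wz
  f1 := by
    rw [mem_stel_uv h]; right; right; left; rfl
  f2 := by
    rw [mem_stel_uv h]; right; right; right; right; rfl
  only := by
    intro s hs h1 h2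
    have huv := h.uv
    have hvw := h.vw
    have hvz := h.vz
    rcases (mem_stel_uv h s).1 hs with ⟨t, ht, h3, rfl⟩ | rfl | rfl | rfl | rfl
    · simp at h1
    · simp at h2; rcases h2 with h2 | h2
      · exact absurd h2.symm huv
      · exact absurd h2 hvw
    · left; rfl
    · simp at h2; rcases h2 with h2 | h2
      · exact absurd h2.symm huv
      · exact absurd h2 hvz
    · right; rfl

/-- New edge `m u` with opposite vertices `w, z`. -/
theorem E2.new_u (h : E2 F u v w z) : E2 (stel F {u, v}) none (some u) (some w) (some z) := by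
  have := h.symm_uv.new_v
  rwa [Set.pair_comm] at this

/-- Adjacency between old vertices after an edge subdivision. -/
theorem adj_some_uv (h : E2 F u v w z) (x y : V) :
    (gr (stel F {u, v})).Adj (some x) (some y) ↔ (gr F).Adj x y ∧ s(x, y) ≠ s(u, v) := by
  constructor
  · rintro ⟨hne, s, hs, hx, hy⟩
    have hne' : x ≠ y := fun e => hne (by rw [e])
    rcases (mem_stel_uv h s).1 hs with ⟨t, ht, h3, rfl⟩ | rfl | rfl | rfl | rfl
    · simp at hx hy
      refine ⟨⟨hne', t, ht, hx, hy⟩, ?_⟩
      rw [Ne, Sym2.eq_iff]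
      rintro (⟨rfl, rfl⟩ | ⟨rfl, rfl⟩)
      · exact h3 ⟨hx, hy⟩
      · exact h3 ⟨hy, hx⟩
    · simp at hx hy
      refine ⟨⟨hne', _, h.f1, by simp; tauto, by simp; tauto⟩, ?_⟩
      rw [Ne, Sym2.eq_iff]
      have := h.uv
      have := h.vw
      rintro (⟨rfl, rfl⟩ | ⟨rfl, rfl⟩) <;> simp_all
    · simp at hx hy
      refine ⟨⟨hne', _, h.f1, by simp; tauto, by simp; tauto⟩, ?_⟩
      rw [Ne, Sym2.eq_iff]
      have := h.uv
      have := h.uw
      rintro (⟨rfl, rfl⟩ | ⟨rfl, rfl⟩) <;> simp_all
    · simp at hx hy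
      refine ⟨⟨hne', _, h.f2, by simp; tauto, by simp; tauto⟩, ?_⟩
      rw [Ne, Sym2.eq_iff]
      have := h.uv
      have := h.vz
      rintro (⟨rfl, rfl⟩ | ⟨rfl, rfl⟩) <;> simp_all
    · simp at hx hy
      refine ⟨⟨hne', _, h.f2, by simp; tauto, by simp; tauto⟩, ?_⟩
      rw [Ne, Sym2.eq_iff]
      have := h.uv
      have := h.uz
      rintro (⟨rfl, rfl⟩ | ⟨rfl, rfl⟩) <;> simp_all
  · rintro ⟨⟨hne, t, ht, hx, hy⟩, h2⟩
    refine ⟨by simpa using hne, ?_⟩
    by_cases h3 : u ∈ t ∧ v ∈ t
    · -- choose the vertex to drop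
      have hsub : ({u, v} : Set V) ⊆ t := by
        intro a ha
        rcases ha with rfl | ha
        · exact h3.1
        · rw [Set.mem_singleton_iff] at ha; rw [ha]; exact h3.2
      have hdrop : (x ≠ u ∧ y ≠ u) ∨ (x ≠ v ∧ y ≠ v) := by
        by_contra hcon
        push Not at hcon
        obtain ⟨c1, c2⟩ := hcon
        apply h2
        rw [Sym2.eq_iff]
        by_cases hxu : x = u
        · subst hxu
          left
          exact ⟨rfl, c2 h.uv⟩
        · have hyu := c1 hxu
          right
          refine ⟨?_, hyu⟩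
          by_contra hxv
          have := c2 hxv
          exact h.uv (hyu.symm.trans this)
      rcases hdrop with hd | hd
      · exact ⟨_, ⟨t, ht, Or.inr ⟨hsub, u, by simp, rfl⟩⟩, by simp [hx, hd.1], by simp [hy, hd.2]⟩
      · exact ⟨_, ⟨t, ht, Or.inr ⟨hsub, v, by simp, rfl⟩⟩, by simp [hx, hd.1], by simp [hy, hd.2]⟩
    · refine ⟨_, ⟨t, ht, Or.inl ⟨?_, rfl⟩⟩, by simpa using hx, by simpa using hy⟩
      intro h4; exact h3 ⟨h4 (by simp), h4 (by simp)⟩

/-- Neighbours of the new vertex after an edge subdivision. -/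
theorem adj_none_uv (h : E2 F u v w z) (x : V) :
    (gr (stel F {u, v})).Adj none (some x) ↔ x = u ∨ x = v ∨ x = w ∨ x = z := by
  constructor
  · rintro ⟨_, s, hs, h1, hx⟩
    rcases (mem_stel_uv h s).1 hs with ⟨t, ht, h3, rfl⟩ | rfl | rfl | rfl | rfl
    · simp at h1
    · simp at hx; tauto
    · simp at hx; tauto
    · simp at hx; tauto
    · simp at hx; tauto
  · rintro (rfl | rfl | rfl | rfl)
    · exact ⟨by simp, _, (mem_stel_uv h _).2 (Or.inr (Or.inl rfl)), by simp, by simp⟩
    · exact ⟨by simp, _, (mem_stel_uv h _).2 (Or.inr (Or.inr (Or.inl rfl))), by simp, by simp⟩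
    · exact ⟨by simp, _, (mem_stel_uv h _).2 (Or.inr (Or.inl rfl)), by simp, by simp⟩
    · exact ⟨by simp, _, (mem_stel_uv h _).2 (Or.inr (Or.inr (Or.inr (Or.inl rfl)))), by simp,
        by simp⟩

end edge

/-! ### Face insertion -/

section face

variable {F : Set (Set V)} {a b c d : V}

theorem subset_abc (h : E2 F a c b d) {t : Set V} (ht : t ∈ F) (hs : ({a, b, c} : Set V) ⊆ t) :
    t = {a, c, b} := by
  have ha : a ∈ t := hs (by simp)
  have hb : b ∈ t := hs (by simp)
  have hc : c ∈ t := hs (by simp)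
  rcases h.only t ht ha hc with h1 | h1
  · exact h1
  · exfalso
    rw [h1] at hb
    simp at hb
    rcases hb with rfl | rfl | rfl
    · exact h.uw rfl
    · exact h.vw rfl
    · exact h.wz rfl

theorem mem_stel_abc (h : E2 F a c b d) (s : Set (Option V)) :
    s ∈ stel F {a, b, c} ↔ (∃ t ∈ F, t ≠ {a, c, b} ∧ s = some '' t) ∨
      s = {none, some b, some c} ∨ s = {none, some a, some c} ∨ s = {none, some a, some b} := by
  have hac := h.uv
  have hab := h.uw
  have hcb := h.vw
  have e1 : ({a, c, b} : Set V) \ {a} = {b, c} := by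
    ext x; simp only [Set.mem_sdiff, Set.mem_insert_iff, Set.mem_singleton_iff]
    constructor
    · rintro ⟨h1 | h1 | h1, h2⟩ <;> simp_all
    · rintro (rfl | rfl)
      · exact ⟨Or.inr (Or.inr rfl), hab.symm⟩
      · exact ⟨Or.inr (Or.inl rfl), hac.symm⟩
  have e2 : ({a, c, b} : Set V) \ {b} = {a, c} := by
    ext x; simp only [Set.mem_sdiff, Set.mem_insert_iff, Set.mem_singleton_iff]
    constructor
    · rintro ⟨h1 | h1 | h1, h2⟩ <;> simp_all
    · rintro (rfl | rfl)
      · exact ⟨Or.inl rfl, hab⟩
      · exact ⟨Or.inr (Or.inl rfl), hcb⟩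
  have e3 : ({a, c, b} : Set V) \ {c} = {a, b} := by
    ext x; simp only [Set.mem_sdiff, Set.mem_insert_iff, Set.mem_singleton_iff]
    constructor
    · rintro ⟨h1 | h1 | h1, h2⟩ <;> simp_all
    · rintro (rfl | rfl)
      · exact ⟨Or.inl rfl, hac⟩
      · exact ⟨Or.inr (Or.inr rfl), hcb.symm⟩
  have s1 : ({a, b, c} : Set V) ⊆ {a, c, b} := by
    intro x hx; simp at hx ⊢; tauto
  constructor
  · rintro ⟨t, ht, h1 | h1⟩
    · left
      refine ⟨t, ht, ?_, h1.2⟩
      rintro rfl
      exact h1.1 s1
    · right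
      obtain ⟨h2, x, hx, rfl⟩ := h1
      have := subset_abc h ht h2
      subst this
      simp only [Set.mem_insert_iff, Set.mem_singleton_iff] at hx
      rcases hx with rfl | rfl | rfl
      · left; rw [e1]; simp [Set.image_insert_eq]
      · right; left; rw [e2]; simp [Set.image_insert_eq]
      · right; right; rw [e3]; simp [Set.image_insert_eq]
  · rintro (⟨t, ht, h1, rfl⟩ | rfl | rfl | rfl)
    · refine ⟨t, ht, Or.inl ⟨?_, rfl⟩⟩
      intro h2; exact h1 (subset_abc h ht h2)
    · refine ⟨_, h.f1, Or.inr ⟨s1, a, by simp, ?_⟩⟩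
      rw [e1]; simp [Set.image_insert_eq]
    · refine ⟨_, h.f1, Or.inr ⟨s1, b, by simp, ?_⟩⟩
      rw [e2]; simp [Set.image_insert_eq]
    · refine ⟨_, h.f1, Or.inr ⟨s1, c, by simp, ?_⟩⟩
      rw [e3]; simp [Set.image_insert_eq]

/-- After inserting `b' = none` in the face `abc`, the edge `ac` has opposite vertices `b', d`. -/
theorem E2.ins_ac (h : E2 F a c b d) : E2 (stel F {a, b, c}) (some a) (some c) none (some d) where
  uv := by simpa using h.uv
  uw := by simp
  uz := by simpa using h.uz
  vw := by simp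
  vz := by simpa using h.vz
  wz := by simp
  f1 := by
    rw [mem_stel_abc h]; right; right; left
    ext x; simp only [Set.mem_insert_iff, Set.mem_singleton_iff]; tauto
  f2 := by
    rw [mem_stel_abc h]; left
    refine ⟨_, h.f2, ?_, by simp [Set.image_insert_eq]⟩
    intro e
    have : d ∈ ({a, c, b} : Set V) := by rw [← e]; simp
    simp at this
    rcases this with rfl | rfl | rfl
    · exact h.uz rfl
    · exact h.vz rfl
    · exact h.wz rfl
  only := by
    intro s hs h1 h2
    have hac := h.uv
    have hab := h.uw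
    have hcb := h.vw
    rcases (mem_stel_abc h s).1 hs with ⟨t, ht, h3, rfl⟩ | rfl | rfl | rfl
    · right
      simp at h1 h2
      rcases h.only t ht h1 h2 with h4 | h4
      · exact absurd h4 h3
      · rw [h4]; simp [Set.image_insert_eq]
    · simp at h1; rcases h1 with h1 | h1
      · exact absurd h1 hab
      · exact absurd h1 hac
    · left; ext x; simp only [Set.mem_insert_iff, Set.mem_singleton_iff]; tauto
    · simp at h2; rcases h2 with h2 | h2
      · exact absurd h2.symm hac
      · exact absurd h2 hcb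

/-- After inserting `b' = none` in the face `abc`, the edge `b b'` has opposite vertices `a, c`. -/
theorem E2.ins_bb (h : E2 F a c b d) : E2 (stel F {a, b, c}) (some b) none (some a) (some c) where
  uv := by simp
  uw := by simpa using h.uw.symm
  uz := by simpa using h.vw.symm
  vw := by simp
  vz := by simp
  wz := by simpa using h.uv
  f1 := by
    rw [mem_stel_abc h]; right; right; right
    ext x; simp only [Set.mem_insert_iff, Set.mem_singleton_iff]; tauto
  f2 := by
    rw [mem_stel_abc h]; right; left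
    ext x; simp only [Set.mem_insert_iff, Set.mem_singleton_iff]; tauto
  only := by
    intro s hs h1 h2
    have hac := h.uv
    have hab := h.uw
    have hcb := h.vw
    rcases (mem_stel_abc h s).1 hs with ⟨t, ht, h3, rfl⟩ | rfl | rfl | rfl
    · simp at h2
    · right; ext x; simp only [Set.mem_insert_iff, Set.mem_singleton_iff]; tauto
    · simp at h1; rcases h1 with h1 | h1
      · exact absurd h1.symm hab
      · exact absurd h1.symm hcb
    · left; ext x; simp only [Set.mem_insert_iff, Set.mem_singleton_iff]; tauto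

/-- Adjacency between old vertices after a face insertion. -/
theorem adj_some_abc (h : E2 F a c b d) (x y : V) :
    (gr (stel F {a, b, c})).Adj (some x) (some y) ↔ (gr F).Adj x y := by
  have hac := h.uv
  have hab := h.uw
  have hcb := h.vw
  constructor
  · rintro ⟨hne, s, hs, hx, hy⟩
    have hne' : x ≠ y := fun e => hne (by rw [e])
    rcases (mem_stel_abc h s).1 hs with ⟨t, ht, h3, rfl⟩ | rfl | rfl | rfl
    · simp at hx hy
      exact ⟨hne', t, ht, hx, hy⟩
    · simp at hx hy
      exact ⟨hne', _, h.f1, by simp; tauto, by simp; tauto⟩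
    · simp at hx hy
      exact ⟨hne', _, h.f1, by simp; tauto, by simp; tauto⟩
    · simp at hx hy
      exact ⟨hne', _, h.f1, by simp; tauto, by simp; tauto⟩
  · rintro ⟨hne, t, ht, hx, hy⟩
    refine ⟨by simpa using hne, ?_⟩
    by_cases h3 : t = {a, c, b}
    · subst h3
      simp only [Set.mem_insert_iff, Set.mem_singleton_iff] at hx hy
      have m1 : ({none, some b, some c} : Set (Option V)) ∈ stel F {a, b, c} :=
        (mem_stel_abc h _).2 (Or.inr (Or.inl rfl))
      have m2 : ({none, some a, some c} : Set (Option V)) ∈ stel F {a, b, c} :=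
        (mem_stel_abc h _).2 (Or.inr (Or.inr (Or.inl rfl)))
      have m3 : ({none, some a, some b} : Set (Option V)) ∈ stel F {a, b, c} :=
        (mem_stel_abc h _).2 (Or.inr (Or.inr (Or.inr rfl)))
      rcases hx with rfl | rfl | rfl <;> rcases hy with rfl | rfl | rfl
      · exact absurd rfl hne
      · exact ⟨_, m2, by simp, by simp⟩
      · exact ⟨_, m3, by simp, by simp⟩
      · exact ⟨_, m2, by simp, by simp⟩
      · exact absurd rfl hne
      · exact ⟨_, m1, by simp, by simp⟩
      · exact ⟨_, m3, by simp, by simp⟩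
      · exact ⟨_, m1, by simp, by simp⟩
      · exact absurd rfl hne
    · exact ⟨_, (mem_stel_abc h _).2 (Or.inl ⟨t, ht, h3, rfl⟩), by simpa using hx,
        by simpa using hy⟩

/-- Neighbours of the new vertex after a face insertion. -/
theorem adj_none_abc (h : E2 F a c b d) (x : V) :
    (gr (stel F {a, b, c})).Adj none (some x) ↔ x = a ∨ x = b ∨ x = c := by
  constructor
  · rintro ⟨_, s, hs, h1, hx⟩
    rcases (mem_stel_abc h s).1 hs with ⟨t, ht, h3, rfl⟩ | rfl | rfl | rfl
    · simp at h1
    · simp at hx; tauto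
    · simp at hx; tauto
    · simp at hx; tauto
  · rintro (rfl | rfl | rfl)
    · exact ⟨by simp, _, (mem_stel_abc h _).2 (Or.inr (Or.inr (Or.inl rfl))), by simp, by simp⟩
    · exact ⟨by simp, _, (mem_stel_abc h _).2 (Or.inr (Or.inl rfl)), by simp, by simp⟩
    · exact ⟨by simp, _, (mem_stel_abc h _).2 (Or.inr (Or.inl rfl)), by simp, by simp⟩

end face

end Pool.Agent.H194R2
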