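import Mathlib

/-!
# Walk counts in complete graphs with forbidden colours
-/

set_option autoImplicit false
open Classical

namespace Pool.Agent.H194R2

open Polynomial

/-- Number of walks (as a real number) of length `j` from `w` to `x` that avoid the colours
`u, v` after the first vertex. -/
noncomputable def W {k : ℕ} (w u v : Fin k) : ℕ → Fin k → ℝ
  | 0, x => if x = w then 1 else 0
  | (j + 1), y => if y = u ∨ y = v then 0 else ∑ x, if x ≠ y then W w u v j x else 0

/-- Closing version, without the test on the last vertex. -/
noncomputable def Wb {k : ℕ} (w u v : Fin k) (j : ℕ) (y : Fin k) : ℝ :=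
  ∑ x, if x ≠ y then W w u v j x else 0

/-- Off-diagonal walk polynomial with two forbidden colours. -/
noncomputable def pa : ℕ → ℝ[X]
  | 0 => 0
  | (j + 1) => (X - C 3) * pa j + C ((-1) ^ j)

/-- Off-diagonal walk polynomial with one forbidden colour. -/
noncomputable def pt : ℕ → ℝ[X]
  | 0 => 0
  | (j + 1) => (X - C 2) * pt j + C ((-1) ^ j)

theorem pa_eval (j : ℕ) (q : ℝ) : (q - 2) * (pa j).eval q = (q - 3) ^ j - (-1) ^ j := by
  induction j with
  | zero => simp [pa]
  | succ j ih =>
    simp only [pa, eval_add, eval_mul, eval_sub, eval_X, eval_C, pow_succ]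
    have : (q - 2) * ((q - 3) * eval q (pa j) + (-1) ^ j) =
      (q - 3) * ((q - 2) * eval q (pa j)) + (q - 2) * (-1) ^ j := by ring
    rw [this, ih]; ring

theorem pt_eval (j : ℕ) (q : ℝ) : (q - 1) * (pt j).eval q = (q - 2) ^ j - (-1) ^ j := by
  induction j with
  | zero => simp [pt]
  | succ j ih =>
    simp only [pt, eval_add, eval_mul, eval_sub, eval_X, eval_C, pow_succ]
    have : (q - 1) * ((q - 2) * eval q (pt j) + (-1) ^ j) =
      (q - 2) * ((q - 1) * eval q (pt j)) + (q - 1) * (-1) ^ j := by ring
    rw [this, ih]; ring

/-- Basic sum over colours. -/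
theorem sum_col {k : ℕ} (S : Finset (Fin k)) (A B : ℝ) (w : Fin k) :
    ∑ x, (if x ∈ S then 0 else A + (if x = w then B else 0)) =
      ((k : ℝ) - S.card) * A + (if w ∈ S then 0 else B) := by
  have h1 : ∀ x, (if x ∈ S then (0 : ℝ) else A + (if x = w then B else 0)) =
      (A - (if x ∈ S then A else 0)) + (if x = w then (if w ∈ S then 0 else B) else 0) := by
    intro x
    by_cases hx : x ∈ S
    · by_cases hxw : x = w
      · subst hxw; simp [hx]
      · simp [hx, hxw]
    · by_cases hxw : x = w
      · subst hxw; simp [hx]
      · simp [hx, hxw]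
  rw [Finset.sum_congr rfl fun x _ => h1 x, Finset.sum_add_distrib, Finset.sum_sub_distrib]
  simp
  ring

/-- The closed form of `W` and `Wb`. -/
theorem W_closed {k : ℕ} (w u v : Fin k) (hu : w ≠ u) (hv : w ≠ v) (j : ℕ) :
    (∀ x, W w u v j x = if x = u ∨ x = v then 0 else
      ((if u = v then (pt j).eval (k : ℝ) else (pa j).eval (k : ℝ)) +
        (if x = w then (-1) ^ j else 0))) ∧
    (∀ y, y ≠ u → y ≠ v → Wb w u v j y =
      ((if u = v then (pt (j + 1)).eval (k : ℝ) else (pa (j + 1)).eval (k : ℝ)) +
        (if y = w then (-1) ^ (j + 1) else 0))) := by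
  have step : ∀ j, (∀ x, W w u v j x = if x = u ∨ x = v then 0 else
      ((if u = v then (pt j).eval (k : ℝ) else (pa j).eval (k : ℝ)) +
        (if x = w then (-1) ^ j else 0))) →
      (∀ y, y ≠ u → y ≠ v → Wb w u v j y =
      ((if u = v then (pt (j + 1)).eval (k : ℝ) else (pa (j + 1)).eval (k : ℝ)) +
        (if y = w then (-1) ^ (j + 1) else 0))) := by
    intro j h y hyu hyv
    unfold Wb
    have e : ∀ x, (if x ≠ y then W w u v j x else 0) =
        if x ∈ ({y, u, v} : Finset (Fin k)) then 0 else
          ((if u = v then (pt j).eval (k : ℝ) else (pa j).eval (k : ℝ)) +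
          (if x = w then (-1) ^ j else 0)) := by
      intro x
      rw [h x]
      by_cases hxy : x = y
      · subst hxy; simp
      · simp only [Finset.mem_insert, Finset.mem_singleton, hxy, ne_eq, not_false_eq_true, if_true,
          false_or]
    rw [Finset.sum_congr rfl fun x _ => e x, sum_col]
    by_cases huv : u = v
    · subst huv
      have hc : ({y, u, u} : Finset (Fin k)).card = 2 := by
        rw [Finset.pair_eq_singleton, Finset.card_insert_of_notMem (by simpa using hyu),
          Finset.card_singleton]
      rw [hc]
      by_cases hyw : y = w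
      · subst hyw
        simp [pt, pow_succ]
      · have : w ∉ ({y, u, u} : Finset (Fin k)) := by
          simp [hu, Ne.symm hyw]
        simp [pt, hyw, hu, Ne.symm hyw]
    · have hc : ({y, u, v} : Finset (Fin k)).card = 3 := by
        rw [Finset.card_insert_of_notMem (by simpa using ⟨hyu, hyv⟩),
          Finset.card_insert_of_notMem (by simpa using huv),
          Finset.card_singleton]
      rw [hc]
      by_cases hyw : y = w
      · subst hyw
        simp [pa, pow_succ, huv]
      · have : w ∉ ({y, u, v} : Finset (Fin k)) := by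
          simp [hu, hv, Ne.symm hyw]
        simp [pa, hyw, hu, hv, huv, Ne.symm hyw]
  have main : ∀ j, (∀ x, W w u v j x = if x = u ∨ x = v then 0 else
      ((if u = v then (pt j).eval (k : ℝ) else (pa j).eval (k : ℝ)) +
        (if x = w then (-1) ^ j else 0))) := by
    intro j
    induction j with
    | zero =>
      intro x
      simp only [W, pt, pa]
      by_cases hxw : x = w
      · subst hxw
        simp [hu, hv]
      · simp [hxw]
    | succ j ih =>
      intro x
      simp only [W]
      by_cases hx : x = u ∨ x = v
      · simp [hx]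
      · have hx' := hx
        push Not at hx'
        rw [if_neg hx, if_neg hx]
        exact step j ih x hx'.1 hx'.2
  exact ⟨main j, step j (main j)⟩

end Pool.Agent.H194R2
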