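import Pool.Agent.H194R2.Count
import Pool.Agent.H194R2.Walk

/-!
# Replacing an edge by a long path of degree four vertices
-/

set_option autoImplicit false
open Classical

namespace Pool.Agent.H194R2

/-- The intermediate state after `j + 1` subdivisions. -/
theorem path_state {V : Type} [Fintype V] {F : Set (Set V)} {pos : V → ℝ × ℝ}
    (hd : Drawn F pos) (hc : Cov F) {u v w z : V} (h : E2 F u v w z) (j : ℕ) :
    ∃ (V' : Type) (_ : Fintype V') (F' : Set (Set V')) (pos' : V' → ℝ × ℝ) (ι : V → V') (p : V'),
      Function.Injective ι ∧ (∀ x, p ≠ ι x) ∧ Drawn F' pos' ∧ Cov F' ∧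
      Fintype.card V' = Fintype.card V + (j + 1) ∧ ec F' = ec F + 6 * (j + 1) ∧
      E2 F' p (ι z) (ι u) (ι v) ∧
      (∀ x y a b, E2 F x y a b → ¬ ({u, v} : Set V) ⊆ {x, y, a} → ¬ ({u, v} : Set V) ⊆ {x, y, b} →
        E2 F' (ι x) (ι y) (ι a) (ι b)) ∧
      (∀ (k : ℕ) (e1 e2 : V) (g : (V → Fin k) → Fin k → ℝ),
        cs k (fun φ : V' → Fin k =>
          if Pr F' s(ι e1, ι e2) s(p, ι z) φ then g (φ ∘ ι) (φ p) else 0) =
        cs k (fun φ : V → Fin k => if Pr F s(e1, e2) s(u, v) φ then
          ∑ x, W (φ w) (φ u) (φ v) (j + 1) x * g φ x else 0)) := by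
  induction j with
  | zero =>
    refine ⟨Option V, inferInstance, stel F {u, v},
      npos pos (fun x => if x = u ∨ x = v then 1 / 2 else 0), some, none,
      Option.some_injective V, fun x => by simp, ?_, hc.uv h, by simp, ?_, h.new_z, ?_, ?_⟩
    · refine hd.stel {u, v} (1 / 2) (by norm_num) _ (fun x => by simp) ?_
      have : ∀ x : V, (if x = u ∨ x = v then (1 / 2 : ℝ) else 0) =
          (if x = u then 1 / 2 else 0) + (if x = v then 1 / 2 else 0) := by
        intro x
        have huv := h.uv
        by_cases h1 : x = u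
        · subst h1; simp [huv]
        · by_cases h2 : x = v
          · subst h2; simp [h1]
          · simp [h1, h2]
      rw [Finset.sum_congr rfl fun x _ => this x, Finset.sum_add_distrib]
      simp
      norm_num
    · rw [ec_uv h]
    · intro x y a b hE h1 h2
      exact hE.carry h1 h2
    · intro k e1 e2 g
      rw [cs_ext]
      refine cs_congr fun φ => ?_
      have hz : (gr F).Adj z u ∧ (gr F).Adj z v :=
        ⟨⟨h.uz.symm, _, h.f2, by simp, by simp⟩, ⟨h.vz.symm, _, h.f2, by simp, by simp⟩⟩
      by_cases hP : Pr F s(e1, e2) s(u, v) φ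
      · rw [if_pos hP]
        refine Finset.sum_congr rfl fun x _ => ?_
        have h1 := Pr_uv h e1 e2 z x φ
        have h2 : (∀ y, (y = u ∨ y = v ∨ y = w ∨ y = z) → y ≠ z → x ≠ φ y) ↔
            (x ≠ φ u ∧ x ≠ φ v ∧ x ≠ φ w) := by
          constructor
          · intro h3
            exact ⟨h3 u (by tauto) h.uz, h3 v (by tauto) h.vz, h3 w (by tauto) h.wz⟩
          · rintro ⟨h3, h4, h5⟩ y (rfl | rfl | rfl | rfl) hy
            · exact h3
            · exact h4
            · exact h5
            · exact absurd rfl hy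
        rw [h2] at h1
        have hW : W (φ w) (φ u) (φ v) (0 + 1) x =
            if x ≠ φ u ∧ x ≠ φ v ∧ x ≠ φ w then 1 else 0 := by
          simp only [W]
          have : (∑ y, if y ≠ x then (if y = φ w then (1 : ℝ) else 0) else 0) =
              if x ≠ φ w then 1 else 0 := by
            have h3 : ∀ y, (if y ≠ x then (if y = φ w then (1 : ℝ) else 0) else 0) =
                if y = φ w then (if x ≠ φ w then 1 else 0) else 0 := by
              intro y
              by_cases h4 : y = φ w
              · subst h4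
                by_cases h5 : φ w = x
                · subst h5; simp
                · simp [h5, Ne.symm h5]
              · simp [h4]
            rw [Finset.sum_congr rfl fun y _ => h3 y]
            simp
          rw [this]
          by_cases c1 : x = φ u
          · simp [c1]
          · by_cases c2 : x = φ v
            · simp [c2]
            · simp [c1, c2]
        rw [hW]
        by_cases h3 : x ≠ φ u ∧ x ≠ φ v ∧ x ≠ φ w
        · rw [if_pos (h1.2 ⟨hP, h3⟩), if_pos h3, one_mul]
          rfl
        · rw [if_neg (fun h4 => h3 (h1.1 h4).2), if_neg h3, zero_mul]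
      · rw [if_neg hP]
        refine Finset.sum_eq_zero fun x _ => ?_
        rw [if_neg]
        intro h4
        exact hP ((Pr_uv h e1 e2 z x φ).1 h4).1
  | succ j ih =>
    obtain ⟨V', _, F', pos', ι, p, hι, hp, hd', hc', hcard, hec, hE, hcar, hid⟩ := ih
    refine ⟨Option V', inferInstance, stel F' {p, ι z},
      npos pos' (fun x => if x = p ∨ x = ι z then 1 / 2 else 0), some ∘ ι, none,
      (Option.some_injective V').comp hι, fun x => by simp, ?_, hc'.uv hE, ?_, ?_, hE.new_v, ?_, ?_⟩
    · refine hd'.stel {p, ι z} (1 / 2) (by norm_num) _ (fun x => by simp) ?_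
      have : ∀ x : V', (if x = p ∨ x = ι z then (1 / 2 : ℝ) else 0) =
          (if x = p then 1 / 2 else 0) + (if x = ι z then 1 / 2 else 0) := by
        intro x
        have huv := hE.uv
        by_cases h1 : x = p
        · subst h1; simp [huv]
        · by_cases h2 : x = ι z
          · subst h2; simp [h1]
          · simp [h1, h2]
      rw [Finset.sum_congr rfl fun x _ => this x, Finset.sum_add_distrib]
      simp
      norm_num
    · rw [Fintype.card_option, hcard]; ring
    · rw [ec_uv hE, hec]; ring
    · intro x y a b hE1 h1 h2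
      have h3 := hcar x y a b hE1 h1 h2
      refine h3.carry ?_ ?_
      · intro h4
        have : p ∈ ({ι x, ι y, ι a} : Set V') := h4 (by simp)
        simp at this
        rcases this with h5 | h5 | h5 <;> exact hp _ h5
      · intro h4
        have : p ∈ ({ι x, ι y, ι b} : Set V') := h4 (by simp)
        simp at this
        rcases this with h5 | h5 | h5 <;> exact hp _ h5
    · intro k e1 e2 g
      rw [cs_ext]
      have h1 : ∀ φ : V' → Fin k,
          (∑ x, if Pr (stel F' {p, ι z}) s((some ∘ ι) e1, (some ∘ ι) e2) s(none, (some ∘ ι) z)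
            (ext x φ) then g (ext x φ ∘ (some ∘ ι)) (ext x φ none) else 0) =
          if Pr F' s(ι e1, ι e2) s(p, ι z) φ then
            (fun (ψ : V → Fin k) (y : Fin k) =>
              ∑ x, if x ≠ y ∧ x ≠ ψ u ∧ x ≠ ψ v then g ψ x else 0) (φ ∘ ι) (φ p) else 0 := by
        intro φ
        have h2 : ∀ x, (Pr (stel F' {p, ι z}) s((some ∘ ι) e1, (some ∘ ι) e2)
            s(none, (some ∘ ι) z) (ext x φ)) ↔
            (Pr F' s(ι e1, ι e2) s(p, ι z) φ ∧ (x ≠ φ p ∧ x ≠ φ (ι u) ∧ x ≠ φ (ι v))) := by
          intro x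
          have h3 := Pr_uv hE (ι e1) (ι e2) (ι z) x φ
          have h4 : (∀ y, (y = p ∨ y = ι z ∨ y = ι u ∨ y = ι v) → y ≠ ι z → x ≠ φ y) ↔
              (x ≠ φ p ∧ x ≠ φ (ι u) ∧ x ≠ φ (ι v)) := by
            constructor
            · intro h3
              exact ⟨h3 p (by tauto) hE.uv, h3 _ (by tauto) hE.vw.symm, h3 _ (by tauto) hE.vz.symm⟩
            · rintro ⟨h3, h4, h5⟩ y (rfl | rfl | rfl | rfl) hy
              · exact h3
              · exact absurd rfl hy
              · exact h4
              · exact h5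
          rw [h4] at h3
          exact h3
        by_cases hP : Pr F' s(ι e1, ι e2) s(p, ι z) φ
        · rw [if_pos hP]
          refine Finset.sum_congr rfl fun x _ => ?_
          by_cases h3 : x ≠ φ p ∧ x ≠ φ (ι u) ∧ x ≠ φ (ι v)
          · rw [if_pos ((h2 x).2 ⟨hP, h3⟩)]
            simp only [Function.comp_apply]
            rw [if_pos h3]
            rfl
          · rw [if_neg (fun h4 => h3 ((h2 x).1 h4).2)]
            simp only [Function.comp_apply]
            rw [if_neg h3]
        · rw [if_neg hP]
          refine Finset.sum_eq_zero fun x _ => ?_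
          rw [if_neg]
          intro h4
          exact hP ((h2 x).1 h4).1
      refine (cs_congr h1).trans ((hid k e1 e2 (fun (ψ : V → Fin k) (y : Fin k) =>
              ∑ x, if x ≠ y ∧ x ≠ ψ u ∧ x ≠ ψ v then g ψ x else 0)).trans (cs_congr fun φ => ?_))
      by_cases hP : Pr F s(e1, e2) s(u, v) φ
      · rw [if_pos hP, if_pos hP]
        simp only [Finset.mul_sum]
        rw [Finset.sum_comm]
        refine Finset.sum_congr rfl fun x _ => ?_
        conv_rhs => rw [W]
        by_cases h3 : x = φ u ∨ x = φ v
        · rw [if_pos h3, zero_mul]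
          refine Finset.sum_eq_zero fun y _ => ?_
          rw [if_neg (by tauto), mul_zero]
        · rw [if_neg h3, Finset.sum_mul]
          push Not at h3
          refine Finset.sum_congr rfl fun y _ => ?_
          by_cases h4 : y = x
          · subst h4; simp
          · rw [if_pos ⟨Ne.symm h4, h3.1, h3.2⟩, if_pos h4]
      · rw [if_neg hP, if_neg hP]

/-- Replacing the edge `u v` by a path with `j + 2` edges from `w` to `z`, all of whose inner
vertices are adjacent to `u` and `v`. -/
theorem path_op {V : Type} [Fintype V] {F : Set (Set V)} {pos : V → ℝ × ℝ}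
    (hd : Drawn F pos) (hc : Cov F) {u v w z : V} (h : E2 F u v w z) (j : ℕ) :
    ∃ (V' : Type) (_ : Fintype V') (F' : Set (Set V')) (pos' : V' → ℝ × ℝ) (ι : V → V'),
      Function.Injective ι ∧ Drawn F' pos' ∧ Cov F' ∧
      Fintype.card V' = Fintype.card V + (j + 1) ∧ ec F' = ec F + 6 * (j + 1) ∧
      (∀ x y a b, E2 F x y a b → ¬ ({u, v} : Set V) ⊆ {x, y, a} → ¬ ({u, v} : Set V) ⊆ {x, y, b} →
        E2 F' (ι x) (ι y) (ι a) (ι b)) ∧
      (∀ (k : ℕ) (e1 e2 : V) (g : (V → Fin k) → ℝ),
        cs k (fun φ : V' → Fin k =>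
          if Pr F' s(ι e1, ι e2) s(ι e1, ι e2) φ then g (φ ∘ ι) else 0) =
        cs k (fun φ : V → Fin k => if Pr F s(e1, e2) s(u, v) φ then
          Wb (φ w) (φ u) (φ v) (j + 1) (φ z) * g φ else 0)) := by
  obtain ⟨V', _, F', pos', ι, p, hι, hp, hd', hc', hcard, hec, hE, hcar, hid⟩ :=
    path_state hd hc h j
  refine ⟨V', inferInstance, F', pos', ι, hι, hd', hc', hcard, hec, hcar, ?_⟩
  intro k e1 e2 g
  have h1 : ∀ φ : V' → Fin k, (if Pr F' s(ι e1, ι e2) s(ι e1, ι e2) φ then g (φ ∘ ι) else 0) =
      (if Pr F' s(ι e1, ι e2) s(p, ι z) φ then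
        (fun (ψ : V → Fin k) (y : Fin k) => if y ≠ ψ z then g ψ else 0) (φ ∘ ι) (φ p) else 0) := by
    intro φ
    have hne : s(p, ι z) ≠ s(ι e1, ι e2) := by
      intro e
      rw [Sym2.eq_iff] at e
      rcases e with e | e
      · exact hp _ e.1
      · exact hp _ e.1
    have hadj : (gr F').Adj p (ι z) := ⟨hE.uv, _, hE.f1, by simp, by simp⟩
    by_cases hP : Pr F' s(ι e1, ι e2) s(p, ι z) φ
    · rw [if_pos hP]
      by_cases h2 : φ p ≠ φ (ι z)
      · have h3 : Pr F' s(ι e1, ι e2) s(ι e1, ι e2) φ := by
          intro x y hxy h4 _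
          by_cases h5 : s(x, y) = s(p, ι z)
          · rw [Sym2.eq_iff] at h5
            rcases h5 with ⟨rfl, rfl⟩ | ⟨rfl, rfl⟩
            · exact h2
            · exact h2.symm
          · exact hP x y hxy h4 h5
        rw [if_pos h3]
        simp only [Function.comp_apply]
        rw [if_pos h2]
      · rw [if_neg]
        · simp only [Function.comp_apply]
          rw [if_neg h2]
        · intro h3
          exact h2 (h3 p (ι z) hadj hne hne)
    · rw [if_neg hP, if_neg]
      intro h3
      exact hP fun x y hxy h4 _ => h3 x y hxy h4 h4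
  refine (cs_congr h1).trans ((hid k e1 e2
    (fun (ψ : V → Fin k) (y : Fin k) => if y ≠ ψ z then g ψ else 0)).trans (cs_congr fun φ => ?_))
  by_cases hP : Pr F s(e1, e2) s(u, v) φ
  · rw [if_pos hP, if_pos hP, Wb, Finset.sum_mul]
    refine Finset.sum_congr rfl fun x _ => ?_
    by_cases hx : x = φ z
    · subst hx; simp
    · simp [hx]
  · rw [if_neg hP, if_neg hP]

end Pool.Agent.H194R2
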